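import Pool.Agent.H410.QM.Stm

/-! Difference of two determinants (helper118). -/

set_option autoImplicit false

namespace Pool.Agent.H410.QM

open Finset Polynomial
open Pool.Agent.H410.NQ

namespace P_DD

theorem prod_le {ι : Type} (s : Finset ι) (b : ι → ℝ) (M : ℝ) (hb : ∀ i, |b i| ≤ M) :
    |∏ i ∈ s, b i| ≤ M ^ s.card := by
  rw [Finset.abs_prod, ← Finset.prod_const]
  exact Finset.prod_le_prod (fun i _ => abs_nonneg _) fun i _ => hb i

theorem prod_sub {ι : Type} (a b : ι → ℝ) (M δ : ℝ) (hM : 0 ≤ M) (hδ : 0 ≤ δ)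
    (ha : ∀ i, |a i| ≤ M) (hb : ∀ i, |b i| ≤ M) (hab : ∀ i, |a i - b i| ≤ M * δ)
    (s : Finset ι) : |∏ i ∈ s, a i - ∏ i ∈ s, b i| ≤ s.card * M ^ s.card * δ := by
  classical
  induction s using Finset.induction_on with
  | empty => simp
  | insert i s hi ih =>
    rw [Finset.prod_insert hi, Finset.prod_insert hi, Finset.card_insert_of_notMem hi]
    have e : a i * ∏ j ∈ s, a j - b i * ∏ j ∈ s, b j =
        a i * (∏ j ∈ s, a j - ∏ j ∈ s, b j) + (a i - b i) * ∏ j ∈ s, b j := by ring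
    rw [e]
    have h1 : |a i * (∏ j ∈ s, a j - ∏ j ∈ s, b j)| ≤ M * (s.card * M ^ s.card * δ) := by
      rw [abs_mul]
      exact mul_le_mul (ha i) ih (abs_nonneg _) hM
    have h2 : |(a i - b i) * ∏ j ∈ s, b j| ≤ M * δ * M ^ s.card := by
      rw [abs_mul]
      exact mul_le_mul (hab i) (prod_le s b M hb) (abs_nonneg _) (mul_nonneg hM hδ)
    refine (abs_add_le _ _).trans ((add_le_add h1 h2).trans_eq ?_)
    push_cast
    ring

end P_DD

theorem t_DD : S_DD := by
  intro N A B M δ hM hδ hA hB hAB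
  rw [Matrix.det_apply', Matrix.det_apply', ← Finset.sum_sub_distrib]
  refine (Finset.abs_sum_le_sum_abs _ _).trans ?_
  have h1 : ∀ σ ∈ (Finset.univ : Finset (Equiv.Perm (Fin N))),
      |((Equiv.Perm.sign σ : ℤ) : ℝ) * ∏ i, A (σ i) i - ((Equiv.Perm.sign σ : ℤ) : ℝ) *
        ∏ i, B (σ i) i| ≤ N * M ^ N * δ := by
    intro σ _
    rw [← mul_sub, abs_mul]
    have h2 : |((Equiv.Perm.sign σ : ℤ) : ℝ)| = 1 := by
      rcases Int.units_eq_one_or (Equiv.Perm.sign σ) with h | h <;> rw [h] <;> simp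
    rw [h2, one_mul]
    have h3 := P_DD.prod_sub (fun i => A (σ i) i) (fun i => B (σ i) i) M δ hM hδ
      (fun i => hA _ _) (fun i => hB _ _) (fun i => hAB _ _) Finset.univ
    rw [Finset.card_univ, Fintype.card_fin] at h3
    exact h3
  refine (Finset.sum_le_card_nsmul _ _ _ h1).trans_eq ?_
  rw [Finset.card_univ, Fintype.card_perm, Fintype.card_fin, nsmul_eq_mul]

end Pool.Agent.H410.QM
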