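import Pool.Agent.H410.QM.Stm

/-!
Choice of the parameters (task QM CHN of helper410)
-/

set_option autoImplicit false

namespace Pool.Agent.H410.QM

open Pool.Agent.H410.NQ

namespace P_CHN

theorem rpow_three_half {x : ℝ} (hx : 0 < x) : x ^ (3 / 2 : ℝ) = x * Real.sqrt x := by
  rw [show (3 / 2 : ℝ) = 1 + 1 / 2 by norm_num, Real.rpow_add hx, Real.rpow_one,
    Real.sqrt_eq_rpow]

theorem sqrt_cube_le {x L : ℝ} (hx : 0 < x) (hL : L ≤ 7 * x) :
    Real.sqrt L ^ 3 ≤ 21 * (x * Real.sqrt x) := by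
  have h1 : Real.sqrt L ≤ Real.sqrt (7 * x) := Real.sqrt_le_sqrt hL
  have h2 : Real.sqrt (7 * x) = Real.sqrt 7 * Real.sqrt x := Real.sqrt_mul (by norm_num) x
  have h3 : Real.sqrt 7 ≤ 3 := by
    rw [show (3 : ℝ) = Real.sqrt 9 by
      rw [show (9 : ℝ) = 3 ^ 2 by norm_num, Real.sqrt_sq (by norm_num)]]
    exact Real.sqrt_le_sqrt (by norm_num)
  have h4 : 0 ≤ Real.sqrt x := Real.sqrt_nonneg x
  have h5 : Real.sqrt (7 * x) ^ 2 = 7 * x := Real.sq_sqrt (by positivity)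
  calc Real.sqrt L ^ 3 ≤ Real.sqrt (7 * x) ^ 3 := pow_le_pow_left₀ (Real.sqrt_nonneg L) h1 3
    _ = Real.sqrt (7 * x) ^ 2 * Real.sqrt (7 * x) := by ring
    _ = 7 * x * (Real.sqrt 7 * Real.sqrt x) := by rw [h5, h2]
    _ ≤ 7 * x * (3 * Real.sqrt x) := by
        refine mul_le_mul_of_nonneg_left ?_ (by positivity)
        exact mul_le_mul_of_nonneg_right h3 h4
    _ = 21 * (x * Real.sqrt x) := by ring

end P_CHN

open P_CHN

theorem t_CHN : S_CHN := by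
  intro P C hP hC
  have hP0 : 0 < P := by linarith
  have hlP : 0 ≤ Real.log P := Real.log_nonneg (by linarith)
  refine ⟨336 * (C : ℝ) ^ 4 * Real.log P, by positivity, ?_⟩
  intro H hH
  have hH0 : 0 < H := by linarith
  have hl2 : (0.6931471803 : ℝ) < Real.log 2 := Real.log_two_gt_d9
  obtain ⟨x, hx⟩ : ∃ x : ℝ, x = Real.log H := ⟨_, rfl⟩
  have hx1 : Real.log 2 ≤ x := by rw [hx]; exact Real.log_le_log (by norm_num) hH
  have hx0 : 0 < x := by linarith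
  have hl0 : 0 < Real.log 2 := by linarith
  obtain ⟨L, hL⟩ : ∃ L : ℕ, L = ⌈x / Real.log 2⌉₊ + 2 := ⟨_, rfl⟩
  have hL1 : x / Real.log 2 + 2 ≤ (L : ℝ) := by
    rw [hL]
    push_cast
    linarith [Nat.le_ceil (x / Real.log 2)]
  have hL2 : (L : ℝ) ≤ 7 * x := by
    have h1 : (⌈x / Real.log 2⌉₊ : ℝ) < x / Real.log 2 + 1 := Nat.ceil_lt_add_one (by positivity)
    have h2 : x / Real.log 2 ≤ 2 * x := by
      rw [div_le_iff₀ hl0]
      nlinarith
    rw [hL]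
    push_cast
    linarith
  have hL3 : (1 : ℝ) ≤ (L : ℝ) := by
    have : 1 ≤ L := by rw [hL]; omega
    exact_mod_cast this
  obtain ⟨m, hm⟩ : ∃ m : ℕ, m = ⌈Real.sqrt L⌉₊ := ⟨_, rfl⟩
  have hs1 : 1 ≤ Real.sqrt L := by
    rw [Real.one_le_sqrt]
    exact hL3
  have hm1 : Real.sqrt L ≤ m := by rw [hm]; exact Nat.le_ceil _
  have hm2 : (m : ℝ) ≤ 2 * Real.sqrt L := by
    have : (m : ℝ) < Real.sqrt L + 1 := by
      rw [hm]
      exact Nat.ceil_lt_add_one (Real.sqrt_nonneg _)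
    linarith
  have hm3 : 1 ≤ m := by
    have : (1 : ℝ) ≤ m := hs1.trans hm1
    exact_mod_cast this
  have hLm : L ≤ m ^ 2 := by
    have h1 : (L : ℝ) ≤ (m : ℝ) ^ 2 := by
      calc (L : ℝ) = Real.sqrt L ^ 2 := (Real.sq_sqrt (by positivity)).symm
        _ ≤ (m : ℝ) ^ 2 := pow_le_pow_left₀ (Real.sqrt_nonneg _) hm1 2
    exact_mod_cast h1
  refine ⟨L, C * m, ?_, ?_, ?_, ?_⟩
  · -- 4 H ≤ 2 ^ L
    have h1 : (4 : ℝ) * H = Real.exp (2 * Real.log 2 + x) := by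
      rw [Real.exp_add, hx, Real.exp_log hH0, two_mul, Real.exp_add,
        Real.exp_log (by norm_num : (0 : ℝ) < 2)]
      norm_num
    have h2 : (2 : ℝ) ^ L = Real.exp (L * Real.log 2) := by
      rw [mul_comm, Real.exp_mul, Real.exp_log (by norm_num : (0 : ℝ) < 2), Real.rpow_natCast]
    rw [h1, h2]
    refine Real.exp_le_exp.2 ?_
    have h3 := mul_le_mul_of_nonneg_right hL1 hl0.le
    have h4 : (x / Real.log 2 + 2) * Real.log 2 = x + 2 * Real.log 2 := by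
      field_simp
    linarith
  · exact Nat.le_mul_of_pos_right C (by omega)
  · calc C * L ≤ C * m ^ 2 := Nat.mul_le_mul_left C hLm
      _ ≤ C * (C * m ^ 2) := Nat.mul_le_mul_left C (Nat.le_mul_of_pos_left _ (by omega))
      _ = (C * m) ^ 2 := by ring
  · have h1 : P ^ (2 * (C * (C * m) ^ 3)) =
        Real.exp (((2 * (C * (C * m) ^ 3) : ℕ) : ℝ) * Real.log P) := by
      rw [mul_comm (((2 * (C * (C * m) ^ 3) : ℕ) : ℝ)) (Real.log P), Real.exp_mul,
        Real.exp_log hP0, Real.rpow_natCast]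
    rw [h1, ← hx]
    refine Real.exp_le_exp.2 ?_
    rw [rpow_three_half hx0]
    have h2 : (m : ℝ) ^ 3 ≤ 8 * (21 * (x * Real.sqrt x)) := by
      calc (m : ℝ) ^ 3 ≤ (2 * Real.sqrt L) ^ 3 := pow_le_pow_left₀ (by positivity) hm2 3
        _ = 8 * Real.sqrt L ^ 3 := by ring
        _ ≤ 8 * (21 * (x * Real.sqrt x)) :=
            mul_le_mul_of_nonneg_left (sqrt_cube_le hx0 hL2) (by norm_num)
    push_cast
    calc 2 * ((C : ℝ) * ((C : ℝ) * (m : ℝ)) ^ 3) * Real.log P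
        = 2 * (C : ℝ) ^ 4 * Real.log P * (m : ℝ) ^ 3 := by ring
      _ ≤ 2 * (C : ℝ) ^ 4 * Real.log P * (8 * (21 * (x * Real.sqrt x))) :=
          mul_le_mul_of_nonneg_left h2 (by positivity)
      _ = 336 * (C : ℝ) ^ 4 * Real.log P * (x * Real.sqrt x) := by ring

end Pool.Agent.H410.QM
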