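import Pool.Agent.H410.QM.Stm

namespace Pool.Agent.H410.QM

open Finset Polynomial
open Pool.Agent.H410.NQ

theorem t_COR (hNEAR : S_NEAR) (hEXP : S_EXP) (hCNZ : Pool.Agent.H410.NQ.S_CNZ) : S_COR := by
  intro p hp
  obtain ⟨C1, h1⟩ := hNEAR p hp
  obtain ⟨C2, h2⟩ := hEXP p hp
  refine ⟨8 * C1 + C2 + 900, by omega, ?_⟩
  intro b s t y y' L n hb hs ht hirr hbL hyL hCn hCL
  by_contra hcon
  have hcon' : |y / b - EB p| * |(p : ℝ)| ^ ((8 * C1 + C2 + 900) * n ^ 3) ≤ 1 := not_lt.1 hcon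
  have hP : (1 : ℝ) ≤ |(p : ℝ)| := by
    have h : ((2 : ℤ) : ℝ) ≤ ((|p| : ℤ) : ℝ) := Int.cast_le.2 hp
    rw [Int.cast_abs] at h
    have h' : (2 : ℝ) ≤ |(p : ℝ)| := by exact_mod_cast h
    linarith
  have hn1 : 1 ≤ n := by omega
  have hexp : C1 * (2 * n) ^ 3 ≤ (8 * C1 + C2 + 900) * n ^ 3 := by
    have e : (2 * n) ^ 3 = 8 * n ^ 3 := by ring
    rw [e]
    have : C1 * (8 * n ^ 3) = (8 * C1) * n ^ 3 := by ring
    rw [this]
    exact Nat.mul_le_mul_right _ (by omega)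
  have hN : |y / b - EB p| * |(p : ℝ)| ^ (C1 * (2 * n) ^ 3) ≤ 1 :=
    (mul_le_mul_of_nonneg_left (pow_le_pow_right₀ hP hexp) (abs_nonneg _)).trans hcon'
  obtain ⟨hd, hle⟩ := h1 (2 * n) (y / b) (by omega) hN
  have hd' : (AM p (y' / b) (2 * n)).det ≠ 0 := by
    rcases hirr with h | h
    · exact hCNZ p hp b s t y y' hb hs ht h n hd
    · rw [h]; exact hd
  have h3 := h2 b s t y y' L n hb hs ht hn1 hd hd' hle hbL hyL
  have h4 : C2 * n ^ 2 ≤ n * n ^ 2 := Nat.mul_le_mul_right _ (by omega)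
  have h5 : 900 * (n * L) ≤ n * n ^ 2 := by
    have h6 : 900 * L ≤ n ^ 2 := (Nat.mul_le_mul_right L (by omega)).trans hCL
    calc 900 * (n * L) = n * (900 * L) := by ring
      _ ≤ n * n ^ 2 := Nat.mul_le_mul_left _ h6
  have h7 : n * n ^ 2 = n ^ 3 := by ring
  have h8 : 0 < n ^ 3 := by positivity
  omega

end Pool.Agent.H410.QM
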