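import Pool.Agent.H410.QM.Stm

/-!
`det (1 + S) ≥ 1` for positive semidefinite `S` (subtask of helper410, proved by helper340).
-/

set_option autoImplicit false

namespace Pool.Agent.H410.QM

open Finset Polynomial
open Pool.Agent.H410.NQ
open Matrix

theorem t_D1 : S_D1 := by
  intro N S hS
  have hT : (1 + S).IsHermitian := (Matrix.isHermitian_one).add hS.isHermitian
  rw [hT.det_eq_prod_eigenvalues]
  have h1 : ∀ i, 1 ≤ hT.eigenvalues i := by
    intro i
    rw [hT.eigenvalues_eq i]
    have h2 : (star (⇑(hT.eigenvectorBasis i)) ⬝ᵥ (⇑(hT.eigenvectorBasis i))) = 1 := by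
      have h3 := hT.eigenvectorBasis.orthonormal.1 i
      have h4 : inner ℝ (hT.eigenvectorBasis i) (hT.eigenvectorBasis i) = (1:ℝ) := by
        rw [real_inner_self_eq_norm_sq, h3]; norm_num
      rw [EuclideanSpace.inner_eq_star_dotProduct, dotProduct_comm] at h4
      exact h4
    have h5 := hS.dotProduct_mulVec_nonneg (⇑(hT.eigenvectorBasis i))
    rw [Matrix.add_mulVec, Matrix.one_mulVec, dotProduct_add, h2]
    simpa using h5
  have h6 : (1:ℝ) ≤ ∏ i, hT.eigenvalues i := by
    calc (1:ℝ) = ∏ i : Fin N, (1:ℝ) := by simp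
      _ ≤ _ := Finset.prod_le_prod (fun _ _ => zero_le_one) (fun i _ => h1 i)
  simpa using h6

end Pool.Agent.H410.QM
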