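import Pool.Agent.H410.QM.Stm

/-!
The inequality of exponents: proof of `S_EXP`.
-/

set_option autoImplicit false

namespace Pool.Agent.H410.QM

open Finset Polynomial
open Pool.Agent.H410.NQ

namespace P_EXP

lemma log36 : Real.log 36 ≤ 5 := by
  have h1 : Real.log 36 ≤ Real.log 64 := Real.log_le_log (by norm_num) (by norm_num)
  have h2 : Real.log 64 = 6 * Real.log 2 := by
    rw [show (64 : ℝ) = 2 ^ 6 by norm_num, Real.log_pow]
    norm_num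
  have h3 := Real.log_two_lt_d9
  linarith

lemma log_fact (N : ℕ) (hN : 1 ≤ N) : Real.log (N.factorial : ℝ) ≤ (N : ℝ) ^ 2 := by
  have hN0 : (0 : ℝ) < N := by exact_mod_cast hN
  have h1 : (N.factorial : ℝ) ≤ (N : ℝ) ^ N := by exact_mod_cast Nat.factorial_le_pow N
  have h2 : (0 : ℝ) < (N.factorial : ℝ) := by exact_mod_cast Nat.factorial_pos N
  have h3 := Real.log_le_log h2 h1
  rw [Real.log_pow] at h3
  have h4 : Real.log (N : ℝ) ≤ N := (Real.log_le_sub_one_of_pos hN0).trans (by linarith)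
  have h5 : (N : ℝ) * Real.log N ≤ N * N := mul_le_mul_of_nonneg_left h4 hN0.le
  rw [pow_two]
  linarith

end P_EXP

theorem t_EXP (hLOW : Pool.Agent.H410.NQ.S_LOW) (hSV : Pool.Agent.H410.NQ.S_SV)
    (hRB : Pool.Agent.H410.NQ.S_RB) (hUB : Pool.Agent.H410.NQ.S_UB) (hUU : S_UU) : S_EXP := by
  intro p hp
  obtain ⟨C₁, hC₁⟩ := hRB p hp
  obtain ⟨C₂, hC₂⟩ := hUU p hp
  refine ⟨12 * C₁ + 100 * C₂ + 6000, ?_⟩
  intro b s t y y' L n hb hs ht hn1 hd1 hd2 hnear hbL hdL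
  have hP2 : (2 : ℝ) ≤ |(p : ℝ)| := by
    have h : ((2 : ℤ) : ℝ) ≤ ((|p| : ℤ) : ℝ) := by exact_mod_cast hp
    rw [Int.cast_abs] at h
    exact_mod_cast h
  have hb1 : (1 : ℝ) ≤ |(b : ℝ)| := by
    have h : ((1 : ℤ) : ℝ) ≤ ((|b| : ℤ) : ℝ) := by exact_mod_cast Int.one_le_abs hb
    rw [Int.cast_abs] at h
    exact_mod_cast h
  have hn0 : (0 : ℝ) < n := by exact_mod_cast hn1
  have hnr : (1 : ℝ) ≤ n := by exact_mod_cast hn1
  have hnn : (n : ℝ) ≤ (n : ℝ) ^ 2 := by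
    rw [pow_two]
    exact le_mul_of_one_le_left hn0.le hnr
  have h1 := hLOW p hp b s t y y' hb hs ht n hd1 hd2
  have h2 := hSV n
  have h3 := hC₁ n hn1
  have h4 := hUB p hp (2 * n)
  have h5 := hC₂ (y' / b) (2 * n) (by omega)
  obtain ⟨P, hP⟩ : ∃ P : ℝ, P = |(p : ℝ)| := ⟨_, rfl⟩
  obtain ⟨B, hB⟩ : ∃ B : ℝ, B = |(b : ℝ)| := ⟨_, rfl⟩
  obtain ⟨δ, hδ⟩ : ∃ δ : ℝ, δ = |y' / b - EB p| := ⟨_, rfl⟩
  rw [← hP] at hP2 h1 h3 h4 h5 hbL hdL
  rw [← hB] at hb1 h1 hbL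
  rw [← hδ] at h5 hdL
  have hδ0 : 0 ≤ δ := by rw [hδ]; exact abs_nonneg _
  rw [← sq_abs (AM p (EB p) (2 * n)).det] at h4
  obtain ⟨d0, hd0d⟩ : ∃ d0 : ℝ, d0 = |(AM p (EB p) (2 * n)).det| := ⟨_, rfl⟩
  obtain ⟨d1, hd1d⟩ : ∃ d1 : ℝ, d1 = |(AM p (y / b) (2 * n)).det| := ⟨_, rfl⟩
  obtain ⟨d2, hd2d⟩ : ∃ d2 : ℝ, d2 = |(AM p (y' / b) (2 * n)).det| := ⟨_, rfl⟩
  obtain ⟨R, hR⟩ : ∃ R : ℝ, R = |(RN p n : ℝ)| := ⟨_, rfl⟩
  obtain ⟨V, hV⟩ : ∃ V : ℕ, V = ∑ r ∈ range (2 * n), vv r := ⟨_, rfl⟩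
  have hd1p : 0 < d1 := by rw [hd1d]; exact abs_pos.2 hd1
  have hd2p : 0 < d2 := by rw [hd2d]; exact abs_pos.2 hd2
  have hR0 : 0 ≤ R := by rw [hR]; exact abs_nonneg _
  rw [← hd1d, ← hd0d] at hnear
  rw [← hd1d, ← hd2d, ← hR, ← hV] at h1
  rw [← hV] at h2
  rw [← hR] at h3
  rw [← hd0d] at h4
  rw [← hd2d] at h5
  have hd0p : 0 < d0 := by linarith
  have hP0 : 0 < P := by linarith
  have hB0 : 0 < B := by linarith
  have hRp : 0 < R := by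
    rcases hR0.eq_or_lt with h | h
    · exfalso
      rw [← h] at h1
      have h6 : 0 < P ^ (2 * V) := by positivity
      simp at h1
      linarith
    · exact h
  obtain ⟨Λ, hΛd⟩ : ∃ Λ : ℝ, Λ = Real.log P := ⟨_, rfl⟩
  have hΛ2 : Real.log 2 ≤ Λ := by rw [hΛd]; exact Real.log_le_log (by norm_num) hP2
  have hlog2 : (1 / 2 : ℝ) ≤ Real.log 2 := by
    have := Real.log_two_gt_d9
    linarith
  have hΛ : 0 < Λ := by linarith
  obtain ⟨β, hβd⟩ : ∃ β : ℝ, β = Real.log B := ⟨_, rfl⟩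
  have hβL : β ≤ L * Λ := by
    have h6 := Real.log_le_log hB0 hbL
    rw [Real.log_pow, ← hΛd, ← hβd] at h6
    exact h6
  -- logarithms
  have l1 : 2 * (V : ℝ) * Λ ≤ 4 * n * β + 2 * Real.log R + (Real.log d1 + Real.log d2) := by
    have h6 := Real.log_le_log (by positivity) h1
    rw [Real.log_pow, Real.log_mul (by positivity) (by positivity),
      Real.log_mul (by positivity) (by positivity), Real.log_pow, Real.log_pow,
      Real.log_mul hd1p.ne' hd2p.ne', ← hΛd, ← hβd] at h6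
    push_cast at h6
    linarith
  have l2 : 2 * (n : ℝ) ^ 3 ≤ 3 * V + 6 * (n : ℝ) ^ 2 := by exact_mod_cast h2
  have l3 : 25 * Real.log R ≤ (32 * (n : ℝ) ^ 3 + C₁ * (n : ℝ) ^ 2) * Λ := by
    have h6 := Real.log_le_log (by positivity) h3
    rw [Real.log_pow, Real.log_pow, ← hΛd] at h6
    push_cast at h6
    linarith
  have l4 : 2 * Real.log d0 + (8 * (n : ℝ) ^ 3 - 4 * (n : ℝ) ^ 2) * Λ ≤ 28 * (n : ℝ) ^ 2 := by
    have hf : (0 : ℝ) < ((2 * n).factorial : ℝ) := by exact_mod_cast Nat.factorial_pos _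
    have h6 := Real.log_le_log (by positivity) h4
    rw [Real.log_mul (by positivity) (by positivity), Real.log_pow, Real.log_pow, Real.log_pow,
      Real.log_mul hf.ne' (by positivity), Real.log_pow, ← hΛd] at h6
    have e1 : (((2 * n) ^ 2 * (2 * n - 1) : ℕ) : ℝ) = 8 * (n : ℝ) ^ 3 - 4 * (n : ℝ) ^ 2 := by
      rw [Nat.cast_mul, Nat.cast_pow, Nat.cast_sub (by omega), Nat.cast_mul]
      push_cast
      ring
    rw [e1] at h6
    have h7 := P_EXP.log_fact (2 * n) (by omega)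
    have h8 := P_EXP.log36
    have h9 : ((2 * n : ℕ) : ℝ) * Real.log 36 ≤ ((2 * n : ℕ) : ℝ) * 5 :=
      mul_le_mul_of_nonneg_left h8 (Nat.cast_nonneg _)
    push_cast at h6 h7 h9
    linarith
  have l5 : 6 * Real.log d2 ≤ 12 * n * Real.log (2 + δ) +
      (16 * (n : ℝ) ^ 3 + 4 * C₂ * (n : ℝ) ^ 2) * Λ := by
    have h6 := Real.log_le_log (by positivity) h5
    rw [Real.log_pow, Real.log_mul (by positivity) (by positivity), Real.log_pow, Real.log_pow,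
      ← hΛd] at h6
    push_cast at h6
    have e : 6 * (2 * (n : ℝ)) * Real.log (2 + δ) +
        (2 * (2 * (n : ℝ)) ^ 3 + C₂ * (2 * (n : ℝ)) ^ 2) * Λ =
      12 * n * Real.log (2 + δ) + (16 * (n : ℝ) ^ 3 + 4 * C₂ * (n : ℝ) ^ 2) * Λ := by ring
    rw [e] at h6
    exact h6
  have l6 : Real.log (2 + δ) ≤ (L + 2) * Λ := by
    have hPL : 1 ≤ P ^ L := one_le_pow₀ (by linarith)
    have h6 : 2 + δ ≤ P ^ (L + 2) := by
      have h7 : P ^ (L + 2) = P ^ L * P ^ 2 := pow_add _ _ _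
      have h8 : (4 : ℝ) ≤ P ^ 2 := by nlinarith
      have h9 : P ^ L * 4 ≤ P ^ L * P ^ 2 := mul_le_mul_of_nonneg_left h8 (by positivity)
      rw [h7]
      linarith
    have h7 := Real.log_le_log (by positivity) h6
    rw [Real.log_pow, ← hΛd] at h7
    push_cast at h7
    exact h7
  have l7 : Real.log d1 ≤ Λ + Real.log d0 := by
    have h6 := Real.log_le_log hd1p hnear
    rw [Real.log_mul (by norm_num) hd0p.ne'] at h6
    linarith
  have l8 : (n : ℝ) * β ≤ n * (L * Λ) := mul_le_mul_of_nonneg_left hβL hn0.le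
  have l9 : (n : ℝ) * Real.log (2 + δ) ≤ n * ((L + 2) * Λ) :=
    mul_le_mul_of_nonneg_left l6 hn0.le
  have l10 : 2 * (n : ℝ) ^ 3 * Λ ≤ (3 * V + 6 * (n : ℝ) ^ 2) * Λ :=
    mul_le_mul_of_nonneg_right l2 hΛ.le
  have l11 : (n : ℝ) * Λ ≤ (n : ℝ) ^ 2 * Λ := mul_le_mul_of_nonneg_right hnn hΛ.le
  have l12 : Λ ≤ (n : ℝ) ^ 2 * Λ := le_mul_of_one_le_left hΛ.le (hnr.trans hnn)
  have l13 : (n : ℝ) ^ 2 * (1 / 2) ≤ (n : ℝ) ^ 2 * Λ :=
    mul_le_mul_of_nonneg_left (hlog2.trans hΛ2) (by positivity)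
  have key : (16 * (n : ℝ) ^ 3) * Λ ≤
      ((12 * C₁ + 100 * C₂ + 6000) * (n : ℝ) ^ 2 + 900 * (n * L)) * Λ := by
    linarith
  have key2 := le_of_mul_le_mul_right key hΛ
  have key3 : ((16 * n ^ 3 : ℕ) : ℝ) ≤
      (((12 * C₁ + 100 * C₂ + 6000) * n ^ 2 + 900 * (n * L) : ℕ) : ℝ) := by
    push_cast
    exact key2
  exact_mod_cast key3

end Pool.Agent.H410.QM
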