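import Pool.Agent.H410.QM.Stm

/-! Lower bound for an infinite Gram determinant. -/

namespace Pool.Agent.H410.QM

open Finset Polynomial
open Pool.Agent.H410.NQ

namespace P_GR

open Matrix in
/-- infinite Gram matrices are positive semidefinite -/
theorem psd (N : ℕ) (K : Matrix (Fin N) (Fin N) ℝ) (w : ℕ → ℝ) (u : ℕ → Fin N → ℝ)
    (hw : ∀ t, 0 ≤ w t) (hK : ∀ i j, HasSum (fun t => w t * u t i * u t j) (K i j)) :
    K.PosSemidef := by
  refine Matrix.PosSemidef.of_dotProduct_mulVec_nonneg ?_ ?_
  · ext i j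
    rw [Matrix.conjTranspose_apply, star_trivial]
    have h1 := hK j i
    have h2 : (fun t => w t * u t j * u t i) = fun t => w t * u t i * u t j := by
      funext t
      ring
    rw [h2] at h1
    exact h1.unique (hK i j)
  · intro x
    have h : HasSum (fun t => ∑ i, ∑ j, x i * ((w t * u t i * u t j) * x j))
        (∑ i, ∑ j, x i * (K i j * x j)) :=
      hasSum_sum fun i _ => hasSum_sum fun j _ => ((hK i j).mul_right (x j)).mul_left (x i)
    have h2 : (fun t => ∑ i, ∑ j, x i * ((w t * u t i * u t j) * x j)) =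
        fun t => w t * (∑ i, x i * u t i) ^ 2 := by
      funext t
      rw [sq, Finset.sum_mul_sum, Finset.mul_sum]
      refine Finset.sum_congr rfl fun i _ => ?_
      rw [Finset.mul_sum]
      refine Finset.sum_congr rfl fun j _ => ?_
      ring
    rw [h2] at h
    have h3 : star x ⬝ᵥ (K *ᵥ x) = ∑ i, ∑ j, x i * (K i j * x j) := by
      rw [dotProduct]
      refine Finset.sum_congr rfl fun i _ => ?_
      rw [Matrix.mulVec, dotProduct, Finset.mul_sum]
      rfl
    rw [h3]
    exact h.nonneg fun t => mul_nonneg (hw t) (sq_nonneg _)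

end P_GR

open Matrix in
theorem t_GR (hD1 : S_D1) : S_GR := by
  intro N M w v hw hM
  set B : Matrix (Fin N) (Fin N) ℝ := Matrix.of fun t i : Fin N => v (t : ℕ) i with hB
  by_cases hdet : B.det = 0
  · rw [hdet]
    have h1 := (P_GR.psd N M w v (fun t => (hw t).le) hM).det_nonneg
    simpa using h1
  · -- the square root factor
    let G : Matrix (Fin N) (Fin N) ℝ :=
      Matrix.diagonal (fun t : Fin N => Real.sqrt (w (t : ℕ))) * B
    have hGdet2 : G.det ^ 2 = (∏ t ∈ range N, w t) * B.det ^ 2 := by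
      show (Matrix.diagonal (fun t : Fin N => Real.sqrt (w (t : ℕ))) * B).det ^ 2 = _
      rw [Matrix.det_mul, Matrix.det_diagonal, mul_pow, ← Finset.prod_pow]
      congr 1
      rw [← Fin.prod_univ_eq_prod_range (fun t => w t) N]
      exact Finset.prod_congr rfl fun t _ => Real.sq_sqrt (hw _).le
    have hGne : G.det ≠ 0 := by
      intro h0
      rw [h0] at hGdet2
      have h1 : 0 < (∏ t ∈ range N, w t) * B.det ^ 2 :=
        mul_pos (Finset.prod_pos fun t _ => hw t) (by positivity)
      rw [← hGdet2] at h1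
      simp at h1
    have hGu : IsUnit G.det := isUnit_iff_ne_zero.2 hGne
    let S : Matrix (Fin N) (Fin N) ℝ := M - Gᵀ * G
    have hGG : ∀ i j, (Gᵀ * G) i j = ∑ t ∈ range N, w t * v t i * v t j := by
      intro i j
      rw [Matrix.mul_apply, ← Fin.sum_univ_eq_sum_range (fun t => w t * v t i * v t j) N]
      refine Finset.sum_congr rfl fun t _ => ?_
      have e : ∀ k, G t k = Real.sqrt (w (t : ℕ)) * v (t : ℕ) k := by
        intro k
        show (Matrix.diagonal (fun t : Fin N => Real.sqrt (w (t : ℕ))) * B) t k = _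
        rw [Matrix.diagonal_mul]
        rfl
      rw [Matrix.transpose_apply, e, e]
      have h1 := Real.mul_self_sqrt (hw (t : ℕ)).le
      linear_combination (v (t : ℕ) i * v (t : ℕ) j) * h1
    have hS : S.PosSemidef := by
      refine P_GR.psd N S (fun t => w (t + N)) (fun t => v (t + N)) (fun t => (hw _).le) ?_
      intro i j
      have h1 := (hasSum_nat_add_iff' N).2 (hM i j)
      have h2 : S i j = M i j - ∑ t ∈ range N, w t * v t i * v t j := by
        show (M - Gᵀ * G) i j = _
        rw [Matrix.sub_apply, hGG]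
      rw [h2]
      exact h1
    have hS' : (G⁻¹ᵀ * S * G⁻¹).PosSemidef := by
      have := hS.conjTranspose_mul_mul_same G⁻¹
      rwa [Matrix.conjTranspose_eq_transpose_of_trivial] at this
    have h1 := hD1 N _ hS'
    have hMe : M = Gᵀ * (1 + G⁻¹ᵀ * S * G⁻¹) * G := by
      have e1 : G⁻¹ * G = 1 := Matrix.nonsing_inv_mul G hGu
      have e2 : Gᵀ * G⁻¹ᵀ = 1 := by
        rw [← Matrix.transpose_mul, e1, Matrix.transpose_one]
      calc M = Gᵀ * G + S := by
            show M = Gᵀ * G + (M - Gᵀ * G)
            abel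
        _ = Gᵀ * G + (Gᵀ * G⁻¹ᵀ) * S * (G⁻¹ * G) := by rw [e1, e2, Matrix.one_mul, Matrix.mul_one]
        _ = Gᵀ * (1 + G⁻¹ᵀ * S * G⁻¹) * G := by
            rw [Matrix.mul_add, Matrix.add_mul, Matrix.mul_one]
            simp only [Matrix.mul_assoc]
    have hdetM : M.det = G.det ^ 2 * (1 + G⁻¹ᵀ * S * G⁻¹).det := by
      have e3 := congrArg Matrix.det hMe
      rw [e3, Matrix.det_mul, Matrix.det_mul, Matrix.det_transpose]
      ring
    rw [hdetM, ← hGdet2]
    have h2 : 0 ≤ G.det ^ 2 := sq_nonneg _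
    nlinarith

end Pool.Agent.H410.QM
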