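import Pool.Agent.H410.QM.Stm
import Pool.Agent.H410.NQ.P_NZ
import Pool.Agent.H410.NQ.P_UB

/-! Lower bound for the determinant at `E` (helper747). -/

namespace Pool.Agent.H410.QM.P_LB

open Finset Polynomial Pool.Agent.H410.NQ

/-- `|x_{t+1}| = P^{-(t+1)}`. -/
theorem xt_abs_eq (p : ℤ) (t : ℕ) : |xt p (t + 1)| = (|(p : ℝ)| ^ (t + 1))⁻¹ := by
  unfold xt
  rw [abs_inv, abs_pow]

theorem xt_ne {p : ℤ} (hp : 2 ≤ |p|) (t : ℕ) : xt p (t + 1) ≠ 0 := by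
  unfold xt
  exact inv_ne_zero (pow_ne_zero _ (P_NZ.ne_zero hp))

theorem QQ_ne {p : ℤ} (hp : 2 ≤ |p|) (N t : ℕ) : QQ p N (xt p (t + 1)) ≠ 0 := by
  intro h
  have h3 := P_NZ.QQ_pos hp N t
  rw [h, mul_zero] at h3
  exact lt_irrefl _ h3

/-- `|Q(x_{t+1})| ≤ P^{N^2}`. -/
theorem QQ_le {p : ℤ} (hp : 2 ≤ |p|) (N t : ℕ) :
    |QQ p N (xt p (t + 1))| ≤ |(p : ℝ)| ^ N ^ 2 := by
  have h2 := P_NZ.abs_real hp
  unfold QQ
  rw [Finset.abs_prod]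
  calc ∏ k ∈ range N, |(p : ℝ) ^ k - xt p (t + 1)|
      ≤ ∏ _k ∈ range N, |(p : ℝ)| ^ N := by
        apply Finset.prod_le_prod
        · intro k _
          exact abs_nonneg _
        · intro k hk
          have hk' : k + 1 ≤ N := Finset.mem_range.mp hk
          have h3 : (1 : ℝ) ≤ |(p : ℝ)| ^ k := one_le_pow₀ (by linarith)
          calc |(p : ℝ) ^ k - xt p (t + 1)| ≤ |(p : ℝ) ^ k| + |xt p (t + 1)| := abs_sub _ _
            _ ≤ |(p : ℝ)| ^ k + 1 / 2 := by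
              rw [abs_pow]
              linarith [P_NZ.xt_abs hp t]
            _ ≤ |(p : ℝ)| ^ k * |(p : ℝ)| := by nlinarith
            _ = |(p : ℝ)| ^ (k + 1) := (pow_succ _ _).symm
            _ ≤ |(p : ℝ)| ^ N := pow_le_pow_right₀ (by linarith) hk'
    _ = |(p : ℝ)| ^ N ^ 2 := by
        rw [Finset.prod_const, Finset.card_range, ← pow_mul, sq]

/-- The product `V` is a nonzero integer. -/
theorem VV_ge {p : ℤ} (hp : 2 ≤ |p|) (N : ℕ) : 1 ≤ |Pool.Agent.H475.QZ.VV ℝ p N| := by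
  have h2 := P_NZ.abs_real hp
  have hcast : Pool.Agent.H475.QZ.VV ℝ p N = ((Pool.Agent.H475.QZ.VV ℤ p N : ℤ) : ℝ) := by
    unfold Pool.Agent.H475.QZ.VV
    push_cast
    rfl
  have hne : Pool.Agent.H475.QZ.VV ℤ p N ≠ 0 := by
    intro h0
    have h1 : Pool.Agent.H475.QZ.VV ℝ p N = 0 := by rw [hcast, h0, Int.cast_zero]
    unfold Pool.Agent.H475.QZ.VV at h1
    rw [Finset.prod_eq_zero_iff] at h1
    obtain ⟨l, _, h1⟩ := h1
    rw [Finset.prod_eq_zero_iff] at h1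
    obtain ⟨i, hi, h1⟩ := h1
    have hil : i < l := Finset.mem_range.mp hi
    have h3 : |(p : ℝ)| ^ l = |(p : ℝ)| ^ i := by
      rw [← abs_pow, ← abs_pow, sub_eq_zero.mp h1]
    have h4 : |(p : ℝ)| ^ i < |(p : ℝ)| ^ l := pow_lt_pow_right₀ (by linarith) hil
    linarith
  rw [hcast]
  have h5 : (1 : ℤ) ≤ |Pool.Agent.H475.QZ.VV ℤ p N| := Int.one_le_abs hne
  rw [← Int.cast_abs]
  exact_mod_cast h5

/-- The weights. -/
noncomputable def wt (p : ℤ) (N t : ℕ) : ℝ := xt p (t + 1) ^ 2 / |QQ p N (xt p (t + 1))|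

theorem wt_pos {p : ℤ} (hp : 2 ≤ |p|) (N t : ℕ) : 0 < wt p N t := by
  unfold wt
  have h1 := xt_ne hp t
  have h2 := QQ_ne hp N t
  have h3 : 0 < |QQ p N (xt p (t + 1))| := abs_pos.mpr h2
  positivity

theorem wt_ge {p : ℤ} (hp : 2 ≤ |p|) (N t : ℕ) (ht : t < N) :
    1 ≤ wt p N t * |(p : ℝ)| ^ (3 * N ^ 2) := by
  have h2 := P_NZ.abs_real hp
  have hP : 0 < |(p : ℝ)| := by linarith
  have h1 : 0 < |QQ p N (xt p (t + 1))| := abs_pos.mpr (QQ_ne hp N t)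
  have h3 := QQ_le hp N t
  have h4 : xt p (t + 1) ^ 2 * |(p : ℝ)| ^ (2 * (t + 1)) = 1 := by
    rw [← sq_abs, xt_abs_eq, mul_comm 2 (t + 1), pow_mul, inv_pow]
    exact inv_mul_cancel₀ (by positivity)
  have hx : 0 < xt p (t + 1) ^ 2 := by
    have := xt_ne hp t
    positivity
  have h5 : |(p : ℝ)| ^ (2 * (t + 1)) ≤ |(p : ℝ)| ^ (2 * N ^ 2) := by
    apply pow_le_pow_right₀ (by linarith)
    have : t + 1 ≤ N := ht
    nlinarith
  have h6 : 1 ≤ xt p (t + 1) ^ 2 * |(p : ℝ)| ^ (2 * N ^ 2) := by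
    rw [← h4]
    exact mul_le_mul_of_nonneg_left h5 hx.le
  unfold wt
  rw [div_mul_eq_mul_div, le_div_iff₀ h1, one_mul]
  calc |QQ p N (xt p (t + 1))| ≤ |(p : ℝ)| ^ N ^ 2 := h3
    _ = 1 * |(p : ℝ)| ^ N ^ 2 := (one_mul _).symm
    _ ≤ (xt p (t + 1) ^ 2 * |(p : ℝ)| ^ (2 * N ^ 2)) * |(p : ℝ)| ^ N ^ 2 := by
        apply mul_le_mul_of_nonneg_right h6
        positivity
    _ = xt p (t + 1) ^ 2 * |(p : ℝ)| ^ (3 * N ^ 2) := by
        rw [mul_assoc, ← pow_add]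
        congr 2
        ring

theorem prod_wt {p : ℤ} (hp : 2 ≤ |p|) (N : ℕ) :
    1 ≤ (∏ t ∈ range N, wt p N t) * |(p : ℝ)| ^ (3 * N ^ 3) := by
  have h1 : |(p : ℝ)| ^ (3 * N ^ 3) = ∏ _t ∈ range N, |(p : ℝ)| ^ (3 * N ^ 2) := by
    rw [Finset.prod_const, Finset.card_range, ← pow_mul]
    congr 1
    ring
  rw [h1, ← Finset.prod_mul_distrib]
  calc (1 : ℝ) = ∏ _t ∈ range N, (1 : ℝ) := by rw [Finset.prod_const_one]
    _ ≤ ∏ t ∈ range N, wt p N t * |(p : ℝ)| ^ (3 * N ^ 2) := by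
      apply Finset.prod_le_prod
      · intro t _
        exact zero_le_one
      · intro t ht
        exact wt_ge hp N t (Finset.mem_range.mp ht)

/-- There is a sign `σ` with `σ |Q(x)| = Q(x)` at all the points. -/
theorem exists_sign {p : ℤ} (hp : 2 ≤ |p|) (N : ℕ) : ∃ σ : ℝ, |σ| = 1 ∧
    ∀ t, σ * (QQ p N (xt p (t + 1)))⁻¹ = |QQ p N (xt p (t + 1))|⁻¹ := by
  rcases lt_trichotomy (∏ k ∈ range N, (p : ℝ) ^ k) 0 with h | h | h
  · refine ⟨-1, by norm_num, fun t => ?_⟩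
    have h1 := P_NZ.QQ_pos hp N t
    have h2 : QQ p N (xt p (t + 1)) < 0 := neg_of_mul_pos_right h1 h.le
    rw [abs_of_neg h2, inv_neg]
    ring
  · exfalso
    have h1 := P_NZ.QQ_pos hp N 0
    rw [h, zero_mul] at h1
    exact lt_irrefl _ h1
  · refine ⟨1, by norm_num, fun t => ?_⟩
    have h1 := P_NZ.QQ_pos hp N t
    have h2 : 0 < QQ p N (xt p (t + 1)) := (pos_iff_pos_of_mul_pos h1).mp h
    rw [abs_of_pos h2, one_mul]

theorem det_T {p : ℤ} (hp : 2 ≤ |p|) (hGR : S_GR) (hVD : S_VD) (N : ℕ)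
    (T : Matrix (Fin N) (Fin N) ℝ)
    (hT : ∀ i j : Fin N, HasSum (fun t : ℕ => xt p (t + 1) ^ 2 * xt p (t + 1) ^ (i : ℕ) *
      xt p (t + 1) ^ (j : ℕ) / QQ p N (xt p (t + 1))) (T i j)) :
    1 ≤ |T.det| * |(p : ℝ)| ^ (5 * N ^ 3) := by
  have h2 := P_NZ.abs_real hp
  obtain ⟨σ, hσ, hs⟩ := exists_sign hp N
  have hgr := hGR N (σ • T) (wt p N) (fun t i => xt p (t + 1) ^ (i : ℕ)) (wt_pos hp N) (by
    intro i j
    have h1 := (hT i j).mul_left σ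
    rw [Matrix.smul_apply, smul_eq_mul]
    have h3 : (fun t : ℕ => wt p N t * xt p (t + 1) ^ (i : ℕ) * xt p (t + 1) ^ (j : ℕ)) =
        fun t : ℕ => σ * (xt p (t + 1) ^ 2 * xt p (t + 1) ^ (i : ℕ) *
          xt p (t + 1) ^ (j : ℕ) / QQ p N (xt p (t + 1))) := by
      funext t
      unfold wt
      rw [div_eq_mul_inv, div_eq_mul_inv, ← hs t]
      ring
    rw [h3]
    exact h1)
  have hvd := hVD p hp N
  obtain ⟨d, hd⟩ : ∃ d : ℝ,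
    d = (Matrix.of fun t i : Fin N => xt p ((t : ℕ) + 1) ^ (i : ℕ)).det := ⟨_, rfl⟩
  have hgr2 : (∏ t ∈ range N, wt p N t) * d ^ 2 ≤ (σ • T).det := by
    rw [hd]
    exact hgr
  rw [← hd] at hvd
  have habs : (σ • T).det ≤ |T.det| := by
    rw [Matrix.det_smul, Fintype.card_fin]
    calc σ ^ N * T.det ≤ |σ ^ N * T.det| := le_abs_self _
      _ = |T.det| := by rw [abs_mul, abs_pow, hσ, one_pow, one_mul]
  have hw := prod_wt hp N
  obtain ⟨W, hW⟩ : ∃ W : ℝ, W = ∏ t ∈ range N, wt p N t := ⟨_, rfl⟩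
  rw [← hW] at hw hgr2
  have hW0 : 0 ≤ W := by
    rw [hW]
    exact Finset.prod_nonneg fun t _ => (wt_pos hp N t).le
  have hd2 : 1 ≤ d ^ 2 * |(p : ℝ)| ^ (2 * N ^ 3) := by
    have h3 : 1 ≤ (|d| * |(p : ℝ)| ^ N ^ 3) ^ 2 := one_le_pow₀ hvd
    calc (1 : ℝ) ≤ (|d| * |(p : ℝ)| ^ N ^ 3) ^ 2 := h3
      _ = d ^ 2 * |(p : ℝ)| ^ (2 * N ^ 3) := by
        rw [mul_pow, sq_abs, ← pow_mul, mul_comm (N ^ 3) 2]
  calc (1 : ℝ) = 1 * 1 := by ring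
    _ ≤ (W * |(p : ℝ)| ^ (3 * N ^ 3)) * (d ^ 2 * |(p : ℝ)| ^ (2 * N ^ 3)) :=
        mul_le_mul hw hd2 zero_le_one (by positivity)
    _ = (W * d ^ 2) * |(p : ℝ)| ^ (5 * N ^ 3) := by
        have h4 : |(p : ℝ)| ^ (5 * N ^ 3) =
            |(p : ℝ)| ^ (3 * N ^ 3) * |(p : ℝ)| ^ (2 * N ^ 3) := by
          rw [← pow_add]
          congr 1
          ring
        rw [h4]
        ring
    _ ≤ |T.det| * |(p : ℝ)| ^ (5 * N ^ 3) := by
        apply mul_le_mul_of_nonneg_right (hgr2.trans habs)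
        positivity

theorem t_LB (hGR : S_GR) (hVD : S_VD) (hHL : Pool.Agent.H410.NQ.S_HL)
    (hDET : Pool.Agent.H475.QZ.S_DET) : S_LB := by
  intro p hp
  refine ⟨5, fun N hN => ?_⟩
  obtain ⟨T, hT⟩ : ∃ T : Matrix (Fin N) (Fin N) ℝ, T = Matrix.of fun i j : Fin N =>
      ∑ k : Fin N, ∑ l : Fin N, ((X : Polynomial ℝ) ^ (i : ℕ)).eval ((p : ℝ) ^ (k : ℕ)) /
        Pool.Agent.H475.QZ.pik ℝ p N k * AM p (EB p) N k l *
          ((X : Polynomial ℝ) ^ (j : ℕ)).coeff l := ⟨_, rfl⟩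
  have hdet := hDET ℝ p hp N (AM p (EB p) N) (fun i => (X : Polynomial ℝ) ^ (i : ℕ))
    (fun i => (X : Polynomial ℝ) ^ (i : ℕ))
    (fun i => ⟨monic_X_pow _, natDegree_X_pow _⟩) (fun i => ⟨monic_X_pow _, natDegree_X_pow _⟩)
  rw [← hT] at hdet
  have hTs : ∀ i j : Fin N, HasSum (fun t : ℕ => xt p (t + 1) ^ 2 * xt p (t + 1) ^ (i : ℕ) *
      xt p (t + 1) ^ (j : ℕ) / QQ p N (xt p (t + 1))) (T i j) := by
    intro i j
    have e : T i j = LL p N (X ^ (i : ℕ)) (X ^ (j : ℕ)) := by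
      rw [hT]
      exact P_UB.LL_eq p N _ _
    have h1 := hHL p hp N (X ^ (i : ℕ)) (X ^ (j : ℕ)) (by rw [natDegree_X_pow]; exact i.2)
      (by rw [natDegree_X_pow]; exact j.2)
    rw [e]
    simp only [eval_pow, eval_X] at h1
    exact h1
  have hmain := det_T hp hGR hVD N T hTs
  have hV := VV_ge hp N
  rw [hdet]
  have h0 : 0 ≤ |T.det| * |(p : ℝ)| ^ (5 * N ^ 3) := by positivity
  calc (1 : ℝ) ≤ |T.det| * |(p : ℝ)| ^ (5 * N ^ 3) := hmain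
    _ = 1 * (|T.det| * |(p : ℝ)| ^ (5 * N ^ 3)) := (one_mul _).symm
    _ ≤ |Pool.Agent.H475.QZ.VV ℝ p N| * (|T.det| * |(p : ℝ)| ^ (5 * N ^ 3)) :=
        mul_le_mul_of_nonneg_right hV h0
    _ = |Pool.Agent.H475.QZ.VV ℝ p N| * |T.det| * |(p : ℝ)| ^ (5 * N ^ 3) := by ring

end Pool.Agent.H410.QM.P_LB

namespace Pool.Agent.H410.QM

theorem t_LB (hGR : S_GR) (hVD : S_VD) (hHL : Pool.Agent.H410.NQ.S_HL)
    (hDET : Pool.Agent.H475.QZ.S_DET) : S_LB := P_LB.t_LB hGR hVD hHL hDET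

end Pool.Agent.H410.QM
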