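import Pool.Agent.H410.QM.Stm
import Pool.Agent.H410.NQ.P_UC

/-!
Lipschitz bound for `z ↦ det (AM p z N)` near `E`.
-/

set_option autoImplicit false

namespace Pool.Agent.H410.QM

open Finset
open Pool.Agent.H410.NQ

namespace P_LIP

theorem exp_le {N : ℕ} (i j : Fin N) : (i : ℕ) * ((j : ℕ) + 1) ≤ N ^ 2 := by
  rw [sq]
  exact Nat.mul_le_mul i.2.le j.2

theorem tot_le {N : ℕ} (hN : 1 ≤ N) : N ^ 2 + (N + (2 * N + N ^ 2 * N)) ≤ 5 * N ^ 3 := by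
  have h1 : N ≤ N ^ 3 := Nat.le_self_pow (by norm_num) N
  have h2 : N ^ 2 ≤ N ^ 3 := Nat.pow_le_pow_right hN (by norm_num)
  have h3 : N ^ 2 * N = N ^ 3 := by ring
  omega

/-- the numerical bound -/
theorem num_le {P : ℝ} (hP : 2 ≤ P) {N : ℕ} (hN : 1 ≤ N) :
    (N.factorial : ℝ) * (N * (3 * P ^ (N ^ 2)) ^ N) ≤ P ^ (5 * N ^ 3) := by
  have hP1 : (1 : ℝ) ≤ P := by linarith
  have hP0 : (0 : ℝ) ≤ P := by linarith
  have h1 : (N.factorial : ℝ) ≤ P ^ (N ^ 2) := by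
    have h : (N.factorial : ℝ) ≤ 2 ^ (N ^ 2) := by exact_mod_cast P_UC.fact_le N
    exact h.trans (pow_le_pow_left₀ (by norm_num) hP _)
  have h2 : (N : ℝ) ≤ P ^ N := by
    have h : (N : ℝ) ≤ 2 ^ N := by exact_mod_cast (Nat.lt_two_pow_self).le
    exact h.trans (pow_le_pow_left₀ (by norm_num) hP _)
  have h3 : (3 * P ^ (N ^ 2)) ^ N ≤ P ^ (2 * N + N ^ 2 * N) := by
    rw [mul_pow, pow_add, pow_mul P (N ^ 2) N, pow_mul P 2 N]
    refine mul_le_mul_of_nonneg_right ?_ (by positivity)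
    exact pow_le_pow_left₀ (by norm_num) (by nlinarith) N
  calc (N.factorial : ℝ) * (N * (3 * P ^ (N ^ 2)) ^ N)
      ≤ P ^ (N ^ 2) * (P ^ N * P ^ (2 * N + N ^ 2 * N)) := by
        refine mul_le_mul h1 ?_ (by positivity) (by positivity)
        exact mul_le_mul h2 h3 (by positivity) (by positivity)
    _ = P ^ (N ^ 2 + (N + (2 * N + N ^ 2 * N))) := by rw [← pow_add, ← pow_add]
    _ ≤ P ^ (5 * N ^ 3) := pow_le_pow_right₀ hP1 (tot_le hN)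

end P_LIP

open P_LIP in
/-- Lipschitz bound -/
theorem t_LIP (hDD : S_DD) (hCF : Pool.Agent.H410.NQ.S_CF) : S_LIP := by
  intro p hp
  refine ⟨5, fun N z hN hz => ?_⟩
  have hP2 := P_UC.two_le hp
  have hP1 : (1 : ℝ) ≤ |(p : ℝ)| := by linarith
  have hpow : ∀ i j : Fin N, |(p : ℝ)| ^ ((i : ℕ) * ((j : ℕ) + 1)) ≤ |(p : ℝ)| ^ (N ^ 2) :=
    fun i j => pow_le_pow_right₀ hP1 (exp_le i j)
  have h1 : ∀ i j : Fin N, |AM p z N i j| ≤ 3 * |(p : ℝ)| ^ (N ^ 2) := by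
    intro i j
    have h := P_UC.Az_le hCF hp z (i : ℕ) ((j : ℕ) + 1)
    show |Az p z (i : ℕ) ((j : ℕ) + 1)| ≤ _
    refine h.trans ?_
    exact mul_le_mul (by linarith) (hpow i j) (by positivity) (by norm_num)
  have h1' : (1 : ℝ) ≤ |(p : ℝ)| ^ (N ^ 2) := one_le_pow₀ hP1
  have h2 : ∀ i j : Fin N, |AM p (EB p) N i j| ≤ 3 * |(p : ℝ)| ^ (N ^ 2) := by
    intro i j
    have h := P_UC.AE_le hCF hp (i : ℕ) ((j : ℕ) + 1)
    show |Az p (EB p) (i : ℕ) ((j : ℕ) + 1)| ≤ _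
    linarith
  have h3 : ∀ i j : Fin N, |AM p z N i j - AM p (EB p) N i j| ≤
      3 * |(p : ℝ)| ^ (N ^ 2) * |z - EB p| := by
    intro i j
    show |Az p z (i : ℕ) ((j : ℕ) + 1) - Az p (EB p) (i : ℕ) ((j : ℕ) + 1)| ≤ _
    rw [P_UC.Az_eq p z (EB p) (i : ℕ) ((j : ℕ) + 1), add_sub_cancel_left, abs_mul, abs_pow]
    refine mul_le_mul_of_nonneg_right ?_ (abs_nonneg _)
    have h := hpow i j
    linarith
  have h4 := hDD N (AM p z N) (AM p (EB p) N) (3 * |(p : ℝ)| ^ (N ^ 2)) |z - EB p|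
    (by positivity) (abs_nonneg _) h1 h2 h3
  refine h4.trans ?_
  have h5 := mul_le_mul_of_nonneg_left (num_le hP2 hN) (abs_nonneg (z - EB p))
  refine le_trans (le_of_eq ?_) h5
  ring

end Pool.Agent.H410.QM
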