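import Pool.Agent.H410.QM.Stm

/-!
`S_ME`: the measure of non-quadraticity.
-/

namespace Pool.Agent.H410.QM

open Pool.Agent.H410.NQ

namespace P_ME

theorem two_le_abs {p : ℤ} (hp : 2 ≤ |p|) : (2 : ℝ) ≤ |(p : ℝ)| := by
  have h : ((2 : ℤ) : ℝ) ≤ ((|p| : ℤ) : ℝ) := Int.cast_le.2 hp
  rw [Int.cast_abs] at h
  exact_mod_cast h

/-- every term of the series is small -/
theorem term_le {p : ℤ} (hp : 2 ≤ |p|) (n : ℕ) :
    |1 / ((p : ℝ) ^ (n + 1) - 1)| ≤ (1 / 2 : ℝ) ^ n := by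
  have hP := two_le_abs hp
  have h1 : (2 : ℝ) ^ (n + 1) ≤ |(p : ℝ)| ^ (n + 1) := pow_le_pow_left₀ (by norm_num) hP _
  have h2 : |(p : ℝ)| ^ (n + 1) - 1 ≤ |(p : ℝ) ^ (n + 1) - 1| := by
    have h := abs_sub_abs_le_abs_sub ((p : ℝ) ^ (n + 1)) 1
    rw [abs_pow, abs_one] at h
    exact h
  have h3 : (1 : ℝ) ≤ 2 ^ n := one_le_pow₀ (by norm_num)
  have h4 : (2 : ℝ) ^ n ≤ |(p : ℝ) ^ (n + 1) - 1| := by
    have e : (2 : ℝ) ^ (n + 1) = 2 * 2 ^ n := by ring
    linarith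
  have h5 : (0 : ℝ) < 2 ^ n := by positivity
  rw [abs_div, abs_one, one_div_pow]
  exact one_div_le_one_div_of_le h5 h4

theorem abs_EB_le {p : ℤ} (hp : 2 ≤ |p|) : |EB p| ≤ 2 := by
  have h1 : HasSum (fun n : ℕ => (1 / 2 : ℝ) ^ n) 2 := hasSum_geometric_two
  unfold EB
  have h2 := tsum_of_norm_bounded (f := fun n : ℕ => 1 / ((p : ℝ) ^ (n + 1) - 1)) h1
    (fun n => by
      rw [Real.norm_eq_abs]
      exact term_le hp n)
  rwa [Real.norm_eq_abs] at h2

/-- `3 x ≤ 5 x^{3/2}` for `x ≥ log 2` -/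
theorem rpow_ge {x : ℝ} (hx : 0.6931471803 < x) : 3 * x ≤ 5 * x ^ (3 / 2 : ℝ) := by
  have hx0 : 0 < x := by linarith
  have e : x ^ (3 / 2 : ℝ) = x * x ^ (1 / 2 : ℝ) := by
    have h : (3 / 2 : ℝ) = 1 + 1 / 2 := by norm_num
    rw [h, Real.rpow_add hx0, Real.rpow_one]
  have h2 : (0.6 : ℝ) ≤ x ^ (1 / 2 : ℝ) := by
    rw [← Real.sqrt_eq_rpow]
    apply Real.le_sqrt_of_sq_le
    norm_num
    norm_num at hx
    linarith
  rw [e]
  nlinarith

/-- `exp(-5 x^{3/2}) ≤ 1/(4H)` -/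
theorem exp_le {H : ℝ} (hH : 2 ≤ H) :
    Real.exp (-(5 * Real.log H ^ (3 / 2 : ℝ))) ≤ 1 / (4 * H) := by
  have hH0 : 0 < H := by linarith
  have hx : 0.6931471803 < Real.log H :=
    lt_of_lt_of_le Real.log_two_gt_d9 (Real.log_le_log (by norm_num) hH)
  have h1 := rpow_ge hx
  have h2 : Real.log (4 * H) ≤ 3 * Real.log H := by
    have h5 : 4 ≤ H ^ 2 := by nlinarith
    have h3 : 4 * H ≤ H ^ 3 := by
      have e : H ^ 3 = H ^ 2 * H := by ring
      rw [e]
      exact mul_le_mul_of_nonneg_right h5 hH0.le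
    calc Real.log (4 * H) ≤ Real.log (H ^ 3) := Real.log_le_log (by positivity) h3
      _ = 3 * Real.log H := by
        rw [Real.log_pow]
        norm_num
  have h4 : 1 / (4 * H) = Real.exp (-Real.log (4 * H)) := by
    rw [Real.exp_neg, Real.exp_log (by positivity), one_div]
  rw [h4]
  exact Real.exp_le_exp.2 (by linarith)

end P_ME

open P_ME in
/-- ME. -/
theorem t_ME (hCOR : S_COR) (hQD : S_QD) (hCHN : S_CHN) : S_ME := by
  intro p hp
  have hP := two_le_abs hp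
  obtain ⟨C, hC1, hcor⟩ := hCOR p hp
  obtain ⟨C0, hC0, hchn⟩ := hCHN |(p : ℝ)| C hP hC1
  have hE := abs_EB_le hp
  refine ⟨C0 + 5, by linarith, ?_⟩
  intro H a b c hH ha hb hc hne
  obtain ⟨L, n, hL, hn, hLn, hexp⟩ := hchn H hH
  have hH0 : 0 < H := by linarith
  have hlog : 0 ≤ Real.log H := Real.log_nonneg (by linarith)
  have hx : 0 ≤ Real.log H ^ (3 / 2 : ℝ) := Real.rpow_nonneg hlog _
  set x := Real.log H ^ (3 / 2 : ℝ) with hxdef
  have hPL : 4 * H ≤ |(p : ℝ)| ^ L := hL.trans (pow_le_pow_left₀ (by norm_num) hP _)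
  have hP0 : 0 < |(p : ℝ)| := by linarith
  have hPn : 0 < |(p : ℝ)| ^ (C * n ^ 3) := pow_pos hP0 _
  have hP1 : 1 ≤ |(p : ℝ)| ^ (C * n ^ 3) := one_le_pow₀ (by linarith)
  have hP2 : |(p : ℝ)| ^ (2 * (C * n ^ 3)) = (|(p : ℝ)| ^ (C * n ^ 3)) ^ 2 := by
    rw [← pow_mul, mul_comm]
  rw [hP2] at hexp
  -- the lower bound from the main inequality
  have key : ∀ z : ℝ, 1 < |z| * |(p : ℝ)| ^ (C * n ^ 3) →
      Real.exp (-((C0 + 5) * x)) ≤ |z| ^ 2 ∧ Real.exp (-((C0 + 5) * x)) ≤ |z| := by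
    intro z hz
    set B := |(p : ℝ)| ^ (C * n ^ 3) with hB
    have h1 : Real.exp (-((C0 + 5) * x)) ≤ Real.exp (-(C0 * x)) :=
      Real.exp_le_exp.2 (by nlinarith)
    have h2 : Real.exp (-(C0 * x)) ≤ 1 / B ^ 2 := by
      rw [Real.exp_neg, ← one_div]
      exact one_div_le_one_div_of_le (by positivity) hexp
    have h3 : 1 / B < |z| := by
      rw [div_lt_iff₀ hPn]
      exact hz
    have h4 : 0 < 1 / B := by positivity
    constructor
    · calc Real.exp (-((C0 + 5) * x)) ≤ 1 / B ^ 2 := h1.trans h2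
        _ = (1 / B) ^ 2 := by rw [one_div_pow]
        _ ≤ |z| ^ 2 := pow_le_pow_left₀ h4.le h3.le 2
    · calc Real.exp (-((C0 + 5) * x)) ≤ 1 / B ^ 2 := h1.trans h2
        _ ≤ 1 / B := one_div_le_one_div_of_le hPn (by nlinarith)
        _ ≤ |z| := h3.le
  -- the quotient by an integer
  have hdiv : ∀ (m : ℤ) (u : ℝ), m ≠ 0 → |u / m| ≤ |u| := by
    intro m u hm
    have h1 : (1 : ℝ) ≤ |(m : ℝ)| := by
      have h := Int.one_le_abs hm
      have h2 : ((1 : ℤ) : ℝ) ≤ ((|m| : ℤ) : ℝ) := Int.cast_le.2 h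
      rw [Int.cast_abs] at h2
      exact_mod_cast h2
    rw [abs_div]
    exact div_le_self (abs_nonneg _) h1
  by_cases ha0 : a = 0
  · by_cases hb0 : b = 0
    · -- constant
      have hc0 : c ≠ 0 := by
        rcases hne with h | h | h
        · exact absurd ha0 h
        · exact absurd hb0 h
        · exact h
      have h1 : (1 : ℝ) ≤ |(c : ℝ)| := by
        have h := Int.one_le_abs hc0
        have h2 : ((1 : ℤ) : ℝ) ≤ ((|c| : ℤ) : ℝ) := Int.cast_le.2 h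
        rw [Int.cast_abs] at h2
        exact_mod_cast h2
      rw [ha0, hb0]
      have e : ((0 : ℤ) : ℝ) * EB p ^ 2 + ((0 : ℤ) : ℝ) * EB p + (c : ℝ) = c := by
        rw [Int.cast_zero]
        ring
      rw [e]
      refine le_trans (Real.exp_le_one_iff.2 ?_) h1
      have : 0 ≤ (C0 + 5) * x := by positivity
      linarith
    · -- linear
      have h := hcor b (-2 * c) (c ^ 2) (-(c : ℝ)) (-(c : ℝ)) L n hb0 (by push_cast; ring)
        (by push_cast; ring) (Or.inr rfl) (by linarith) (by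
          have h1 := abs_sub (-(c : ℝ) / b) (EB p)
          have h2 := hdiv b (-(c : ℝ)) hb0
          rw [abs_neg] at h2
          linarith) hn hLn
      have h5 := (key _ h).2
      refine h5.trans ?_
      rw [ha0]
      have hb1 : (b : ℝ) ≠ 0 := Int.cast_ne_zero.2 hb0
      have e : -(c : ℝ) / b - EB p = -((b * EB p + c) / b) := by
        field_simp
        ring
      have e2 : ((0 : ℤ) : ℝ) * EB p ^ 2 + (b : ℝ) * EB p + (c : ℝ) = b * EB p + c := by
        rw [Int.cast_zero]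
        ring
      rw [e, e2, abs_neg]
      exact hdiv b _ hb0
  · rcases hQD a b c (EB p) H ha0 ha hb hc with h | ⟨s, t, y, y', h1, h2, h3, h4, h5⟩
    · refine le_trans ?_ h
      refine le_trans (Real.exp_le_exp.2 ?_) (exp_le hH)
      rw [← hxdef]
      nlinarith
    · have h := hcor a s t y y' L n ha0 h1 h2 h3 (by linarith) (by
        have h6 := abs_sub (y' / a) (EB p)
        have h7 := hdiv a y' ha0
        linarith) hn hLn
      exact ((key _ h).1).trans h5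

end Pool.Agent.H410.QM
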