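import Pool.Agent.H410.QM.Stm

/-!
Task NEAR of project QM: if `z` is very close to `E`, then the determinant at `z` is not `0` and not
much larger than the one at `E`.
-/

namespace Pool.Agent.H410.QM

open Finset Polynomial
open Pool.Agent.H410.NQ

namespace P_NEAR

theorem aux {a b δ A B D : ℝ} (hδ : 0 ≤ δ) (hA : 1 ≤ A) (hB : 1 ≤ B) (hD : 2 ≤ D)
    (h1 : δ * (A * B * D) ≤ 1) (h2 : 1 ≤ |b| * A) (h3 : |a - b| ≤ δ * B) :
    a ≠ 0 ∧ |a| ≤ 2 * |b| := by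
  have hA0 : 0 < A := by linarith
  have hb : 0 < |b| := by
    rcases (abs_nonneg b).lt_or_eq with h | h
    · exact h
    · rw [← h, zero_mul] at h2
      linarith
  have h4 : δ * B * 2 * A ≤ |b| * A := by
    have h5 : δ * B * A * 2 ≤ δ * B * A * D :=
      mul_le_mul_of_nonneg_left hD (by positivity)
    nlinarith
  have h6 : δ * B * 2 ≤ |b| := le_of_mul_le_mul_right h4 hA0
  refine ⟨?_, ?_⟩
  · rintro rfl
    rw [zero_sub, abs_neg] at h3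
    linarith
  · have h7 : |a| ≤ |a - b| + |b| := by
      have := abs_add_le (a - b) b
      rwa [sub_add_cancel] at this
    linarith

end P_NEAR

theorem t_NEAR (hLB : S_LB) (hLIP : S_LIP) : S_NEAR := by
  intro p hp
  obtain ⟨C₁, h1⟩ := hLB p hp
  obtain ⟨C₂, h2⟩ := hLIP p hp
  have hP : (2 : ℝ) ≤ |(p : ℝ)| := by exact_mod_cast hp
  have hP1 : (1 : ℝ) ≤ |(p : ℝ)| := by linarith
  refine ⟨C₁ + C₂ + 1, fun N z hN h => ?_⟩
  have hK : 1 ≤ N ^ 3 := Nat.one_le_pow _ _ hN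
  have hδ : |z - EB p| ≤ 1 := by
    have h3 : (1 : ℝ) ≤ |(p : ℝ)| ^ ((C₁ + C₂ + 1) * N ^ 3) := one_le_pow₀ hP1
    have h4 := mul_le_mul_of_nonneg_left h3 (abs_nonneg (z - EB p))
    linarith
  have e : |(p : ℝ)| ^ ((C₁ + C₂ + 1) * N ^ 3) =
      |(p : ℝ)| ^ (C₁ * N ^ 3) * |(p : ℝ)| ^ (C₂ * N ^ 3) * |(p : ℝ)| ^ (N ^ 3) := by
    rw [← pow_add, ← pow_add]
    congr 1
    ring
  rw [e] at h
  have hD : (2 : ℝ) ≤ |(p : ℝ)| ^ (N ^ 3) := by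
    calc (2 : ℝ) ≤ |(p : ℝ)| ^ 1 := by rw [pow_one]; exact hP
      _ ≤ _ := pow_le_pow_right₀ hP1 hK
  exact P_NEAR.aux (abs_nonneg _) (one_le_pow₀ hP1) (one_le_pow₀ hP1) hD h (h1 N hN)
    (h2 N z hN hδ)

end Pool.Agent.H410.QM
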