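import Pool.Agent.H410.QM.Stm

/-! Quadratic polynomials with real roots. -/

set_option autoImplicit false

namespace Pool.Agent.H410.QM

open Pool.Agent.H410.NQ

namespace P_QD

theorem core {a b c : ℤ} {E y y' : ℝ} (ha : a ≠ 0) (h1 : y + y' = -(b : ℝ))
    (h2 : y * y' = (a : ℝ) * c) (hle : |y / a - E| ≤ |y' / a - E|) :
    |y / a - E| ^ 2 ≤ |a * E ^ 2 + b * E + c| := by
  have haR : (a : ℝ) ≠ 0 := by exact_mod_cast ha
  have ha1 : (1 : ℝ) ≤ |(a : ℝ)| := by
    have : (1 : ℤ) ≤ |a| := Int.one_le_abs ha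
    exact_mod_cast this
  have e : a * E ^ 2 + b * E + c = a * ((y / a - E) * (y' / a - E)) := by
    have hb : (b : ℝ) = -(y + y') := by linarith
    have hc : (c : ℝ) = y * y' / a := by
      rw [h2]; field_simp
    rw [hb, hc]
    field_simp
    ring
  rw [e, abs_mul, abs_mul]
  have h3 : 0 ≤ |y / a - E| := abs_nonneg _
  have h4 : |y / a - E| ^ 2 ≤ |y / a - E| * |y' / a - E| := by
    rw [sq]
    exact mul_le_mul_of_nonneg_left hle h3
  have h5 : 0 ≤ |y / a - E| * |y' / a - E| := mul_nonneg h3 (abs_nonneg _)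
  nlinarith

theorem fin {a b c : ℤ} {E H y y' : ℝ} (ha : a ≠ 0) (h1 : y + y' = -(b : ℝ))
    (h2 : y * y' = (a : ℝ) * c) (hle : |y / a - E| ≤ |y' / a - E|)
    (hy : |y| ≤ 2 * H) (hy' : |y'| ≤ 2 * H) (hi : Irrational y' ∨ ∃ k : ℤ, y = k) :
    ∃ (s t : ℤ) (y y' : ℝ), y + y' = s ∧ y * y' = t ∧ (Irrational y' ∨ y' = y) ∧ |y'| ≤ 2 * H ∧
      |y / a - E| ^ 2 ≤ |a * E ^ 2 + b * E + c| := by
  have h3 := core ha h1 h2 hle
  rcases hi with hi | ⟨k, hk⟩
  · refine ⟨-b, a * c, y, y', ?_, ?_, Or.inl hi, hy', h3⟩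
    · rw [h1]; push_cast; ring
    · rw [h2]; push_cast; ring
  · refine ⟨2 * k, k ^ 2, y, y, ?_, ?_, Or.inr rfl, hy, h3⟩
    · rw [hk]; push_cast; ring
    · rw [hk]; push_cast; ring

end P_QD

open P_QD in
theorem t_QD : S_QD := by
  intro a b c E H ha hA hB hC
  have haR : (a : ℝ) ≠ 0 := by exact_mod_cast ha
  have ha1 : (1 : ℝ) ≤ |(a : ℝ)| := by
    have : (1 : ℤ) ≤ |a| := Int.one_le_abs ha
    exact_mod_cast this
  have hH : 1 ≤ H := ha1.trans hA
  set D : ℤ := b ^ 2 - 4 * a * c with hD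
  rcases lt_or_ge D 0 with hneg | hpos
  · left
    have hD1 : (D : ℝ) ≤ -1 := by
      have : D ≤ -1 := by omega
      exact_mod_cast this
    have e : 4 * (a : ℝ) * (a * E ^ 2 + b * E + c) = (2 * a * E + b) ^ 2 - D := by
      rw [hD]; push_cast; ring
    have h1 : 1 ≤ |4 * (a : ℝ) * (a * E ^ 2 + b * E + c)| := by
      rw [e]
      refine le_trans ?_ (le_abs_self _)
      nlinarith [sq_nonneg (2 * (a : ℝ) * E + b)]
    rw [abs_mul, abs_mul, abs_of_pos (by norm_num : (0 : ℝ) < 4)] at h1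
    rw [div_le_iff₀ (by linarith)]
    have h2 : 0 ≤ |a * E ^ 2 + b * E + c| := abs_nonneg _
    nlinarith
  · right
    have hDR : (0 : ℝ) ≤ (D : ℝ) := by exact_mod_cast hpos
    set r : ℝ := Real.sqrt (D : ℝ) with hr
    have hr0 : 0 ≤ r := Real.sqrt_nonneg _
    have hr2 : r ^ 2 = (D : ℝ) := Real.sq_sqrt hDR
    have hDe : (D : ℝ) = (b : ℝ) ^ 2 - 4 * a * c := by rw [hD]; push_cast; ring
    have hac : |(a : ℝ) * c| ≤ H * H := by
      rw [abs_mul]
      exact mul_le_mul hA hC (abs_nonneg _) (by linarith)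
    have hb2 : (b : ℝ) ^ 2 ≤ H ^ 2 := by
      rw [← sq_abs]
      exact pow_le_pow_left₀ (abs_nonneg _) hB 2
    have hr3 : r ≤ 3 * H := by
      apply le_of_sq_le_sq _ (by linarith)
      rw [hr2, hDe]
      have := (abs_le.mp hac).1
      nlinarith
    have hu : |(-(b : ℝ) + r) / 2| ≤ 2 * H := by
      have := abs_le.mp hB
      rw [abs_le]
      constructor <;> linarith [this.1, this.2]
    have hu' : |(-(b : ℝ) - r) / 2| ≤ 2 * H := by
      have := abs_le.mp hB
      rw [abs_le]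
      constructor <;> linarith [this.1, this.2]
    have hs : (-(b : ℝ) + r) / 2 + (-(b : ℝ) - r) / 2 = -(b : ℝ) := by ring
    have ht : (-(b : ℝ) + r) / 2 * ((-(b : ℝ) - r) / 2) = (a : ℝ) * c := by
      have : (-(b : ℝ) + r) / 2 * ((-(b : ℝ) - r) / 2) = ((b : ℝ) ^ 2 - r ^ 2) / 4 := by ring
      rw [this, hr2, hDe]; ring
    have hs' : (-(b : ℝ) - r) / 2 + (-(b : ℝ) + r) / 2 = -(b : ℝ) := by ring
    have ht' : (-(b : ℝ) - r) / 2 * ((-(b : ℝ) + r) / 2) = (a : ℝ) * c := by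
      rw [mul_comm]; exact ht
    by_cases hsq : IsSquare D
    · -- integral roots
      obtain ⟨m, hm⟩ := hsq
      have hrm : r = |(m : ℝ)| := by
        rw [hr, hm]; push_cast
        rw [Real.sqrt_mul_self_eq_abs]
      have hpar : ∃ k : ℤ, m = b + 2 * k := by
        have h1 : m * m - b * b = 2 * (-2 * a * c) := by
          rw [← hm, hD]; ring
        have h2 : (m - b) * (m + b) = 2 * (-2 * a * c) := by rw [← h1]; ring
        rcases Int.even_or_odd (m - b) with ⟨k, hk⟩ | ⟨k, hk⟩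
        · exact ⟨k, by omega⟩
        · exfalso
          have h3 : m + b = 2 * (k + b) + 1 := by omega
          rw [hk, h3] at h2
          have h4 : (2 * k + 1) * (2 * (k + b) + 1) = 2 * (2 * k * (k + b) + k + (k + b)) + 1 := by
            ring
          rw [h4] at h2
          omega
      obtain ⟨k, hk⟩ := hpar
      have hmR : (m : ℝ) = b + 2 * k := by rw [hk]; push_cast; ring
      have hint : (∃ l : ℤ, (-(b : ℝ) + r) / 2 = l) ∧ ∃ l : ℤ, (-(b : ℝ) - r) / 2 = l := by
        rcases abs_choice (m : ℝ) with h | h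
        · rw [hrm, h, hmR]
          exact ⟨⟨k, by ring⟩, ⟨-b - k, by push_cast; ring⟩⟩
        · rw [hrm, h, hmR]
          exact ⟨⟨-b - k, by push_cast; ring⟩, ⟨k, by ring⟩⟩
      rcases le_total |(-(b : ℝ) + r) / 2 / a - E| |(-(b : ℝ) - r) / 2 / a - E| with hle | hle
      · exact P_QD.fin ha hs ht hle hu hu' (Or.inr hint.1)
      · exact P_QD.fin ha hs' ht' hle hu' hu (Or.inr hint.2)
    · have hirr : Irrational r := (irrational_sqrt_intCast_iff_of_nonneg hpos).mpr hsq
      have h1 : Irrational ((-(b : ℝ) - r) / 2) := by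
        have h := (hirr.intCast_sub (-b)).div_natCast (m := 2) (by norm_num)
        push_cast at h
        exact h
      have h2 : Irrational ((-(b : ℝ) + r) / 2) := by
        have h := (hirr.intCast_add (-b)).div_natCast (m := 2) (by norm_num)
        push_cast at h
        exact h
      rcases le_total |(-(b : ℝ) + r) / 2 / a - E| |(-(b : ℝ) - r) / 2 / a - E| with hle | hle
      · exact P_QD.fin ha hs ht hle hu hu' (Or.inl h1)
      · exact P_QD.fin ha hs' ht' hle hu' hu (Or.inl h2)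

end Pool.Agent.H410.QM
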