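import Pool.Agent.H410.QM.Stm
import Pool.Agent.H410.NQ.P_UC

/-!
Uniform upper bound for the determinant at `z`.
-/

set_option autoImplicit false

namespace Pool.Agent.H410.QM

open Finset Polynomial
open Pool.Agent.H410.NQ
open Pool.Agent.H410.NQ.P_UC

/-- uniform upper bound for the determinant -/
theorem t_UU (hCF : Pool.Agent.H410.NQ.S_CF) (hDU : Pool.Agent.H475.QZ.S_DU) : S_UU := by
  intro p hp
  have hP2 := two_le hp
  obtain ⟨P, hPd⟩ : ∃ P : ℝ, P = |(p : ℝ)| := ⟨_, rfl⟩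
  rw [← hPd] at hP2
  refine ⟨12, fun z N hN => ?_⟩
  rw [← hPd]
  obtain ⟨c0, hc0⟩ : ∃ c0 : ℝ, c0 = 2 + |z - EB p| := ⟨_, rfl⟩
  rw [← hc0]
  have hc0n : 0 ≤ c0 := by rw [hc0]; positivity
  have hP1 : (1 : ℝ) ≤ P := by linarith
  have hP0 : (0 : ℝ) ≤ P := by linarith
  have hr1 : (1 : ℝ) ≤ √P := by
    rw [Real.one_le_sqrt]
    exact hP1
  have hrr : √P ^ 2 = P := Real.sq_sqrt hP0
  have hent : ∀ i j : Fin N, |AM p z N i j| ≤
      (c0 * P ^ N) * √P ^ ((i : ℕ) ^ 2) * √P ^ ((j : ℕ) ^ 2) := by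
    intro i j
    have h1 := Az_le hCF hp z (i : ℕ) ((j : ℕ) + 1)
    rw [← hc0, ← hPd] at h1
    have h2 : AM p z N i j = Az p z (i : ℕ) ((j : ℕ) + 1) := rfl
    rw [h2]
    refine h1.trans ?_
    rw [mul_assoc, mul_assoc]
    refine mul_le_mul_of_nonneg_left ?_ hc0n
    have h3 : P ^ ((i : ℕ) * ((j : ℕ) + 1)) = P ^ (i : ℕ) * P ^ ((i : ℕ) * (j : ℕ)) := by
      rw [← pow_add]
      congr 1
      ring
    rw [h3]
    have h4 : P ^ (i : ℕ) ≤ P ^ N := pow_le_pow_right₀ hP1 i.2.le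
    have h5 : P ^ ((i : ℕ) * (j : ℕ)) ≤ √P ^ ((i : ℕ) ^ 2) * √P ^ ((j : ℕ) ^ 2) := by
      rw [← pow_add]
      have h6 : P ^ ((i : ℕ) * (j : ℕ)) = √P ^ (2 * ((i : ℕ) * (j : ℕ))) := by
        rw [pow_mul √P 2, hrr]
      rw [h6]
      refine pow_le_pow_right₀ hr1 ?_
      nlinarith [sq_nonneg ((i : ℤ) - (j : ℤ)), two_mul_le_add_sq (i : ℕ) (j : ℕ)]
    exact mul_le_mul h4 h5 (by positivity) (by positivity)
  have hdet := hDU N (AM p z N) (c0 * P ^ N) (fun i => √P ^ ((i : ℕ) ^ 2)) (by positivity)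
    (fun i => by positivity) hent
  have hprod : ∏ i : Fin N, (√P ^ ((i : ℕ) ^ 2)) ^ 2 = P ^ (∑ i : Fin N, (i : ℕ) ^ 2) := by
    rw [← Finset.prod_pow_eq_pow_sum]
    refine Finset.prod_congr rfl fun i _ => ?_
    rw [← pow_mul, mul_comm, pow_mul, hrr]
  rw [hprod] at hdet
  have hfac : (N.factorial : ℝ) ≤ P ^ (N ^ 2) := by
    have h1 : (N.factorial : ℝ) ≤ 2 ^ (N ^ 2) := by exact_mod_cast fact_le N
    exact h1.trans (pow_le_pow_left₀ (by norm_num) hP2 _)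
  have hall : |(AM p z N).det| ≤
      P ^ (N ^ 2) * (c0 * P ^ N) ^ N * P ^ (∑ i : Fin N, (i : ℕ) ^ 2) := by
    refine hdet.trans ?_
    apply mul_le_mul_of_nonneg_right _ (by positivity)
    exact mul_le_mul_of_nonneg_right hfac (by positivity)
  have h6 : |(AM p z N).det| ^ 6 ≤
      (P ^ (N ^ 2) * (c0 * P ^ N) ^ N * P ^ (∑ i : Fin N, (i : ℕ) ^ 2)) ^ 6 :=
    pow_le_pow_left₀ (abs_nonneg _) hall 6
  refine h6.trans ?_
  have h7 : (P ^ (N ^ 2) * (c0 * P ^ N) ^ N * P ^ (∑ i : Fin N, (i : ℕ) ^ 2)) ^ 6 =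
      c0 ^ (6 * N) * P ^ (6 * N ^ 2 + 6 * N ^ 2 + 6 * ∑ i : Fin N, (i : ℕ) ^ 2) := by
    rw [mul_pow c0, ← pow_mul P, mul_pow, mul_pow, mul_pow, ← pow_mul, ← pow_mul, ← pow_mul,
      ← pow_mul, pow_add, pow_add]
    have e1 : N * 6 = 6 * N := by ring
    have e2 : N ^ 2 * 6 = 6 * N ^ 2 := by ring
    have e3 : N * N * 6 = 6 * N ^ 2 := by ring
    have e4 : (∑ i : Fin N, (i : ℕ) ^ 2) * 6 = 6 * ∑ i : Fin N, (i : ℕ) ^ 2 := by ring
    rw [e1, e2, e3, e4]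
    ring
  rw [h7]
  refine mul_le_mul_of_nonneg_left ?_ (by positivity)
  refine pow_le_pow_right₀ hP1 ?_
  have h8 := sum_sq_le N
  nlinarith

end Pool.Agent.H410.QM
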