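import Pool.Agent.H410.QM.Stm

/-!
The Vandermonde determinant of the points `p^{-t}`, `1 ≤ t ≤ N`.
-/

set_option autoImplicit false

namespace Pool.Agent.H410.QM

open Finset Polynomial
open Pool.Agent.H410.NQ

namespace P_VD

theorem one_le_abs_sub {p : ℤ} (hp : 2 ≤ |p|) {k : ℕ} (hk : k ≠ 0) :
    1 ≤ |1 - (p : ℝ) ^ k| := by
  have h1 : (1 : ℤ) - p ^ k ≠ 0 := by
    intro h
    have h2 : p ^ k = 1 := by linarith
    have h3 : |p| ^ k = 1 := by rw [← abs_pow, h2, abs_one]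
    have h4 : 1 < |p| ^ k := one_lt_pow₀ (by linarith) hk
    linarith
  have h2 : (1 : ℤ) ≤ |1 - p ^ k| := Int.one_le_abs h1
  exact_mod_cast h2

theorem one_le_prod {ι : Type} (s : Finset ι) (f : ι → ℝ) (h : ∀ i ∈ s, 1 ≤ f i) :
    1 ≤ ∏ i ∈ s, f i := by
  have h1 := Finset.prod_le_prod (s := s) (f := fun _ => (1 : ℝ)) (g := f)
    (fun _ _ => zero_le_one) h
  simpa using h1

theorem diff {p : ℤ} (hp : 2 ≤ |p|) {N i j : ℕ} (hij : i < j) (hj : j < N) :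
    1 ≤ |xt p (j + 1) - xt p (i + 1)| * |(p : ℝ)| ^ N := by
  have hq : (2 : ℝ) ≤ |(p : ℝ)| := by exact_mod_cast hp
  have hq0 : (0 : ℝ) < |(p : ℝ)| := by linarith
  have hp0 : (p : ℝ) ≠ 0 := abs_pos.1 hq0
  have e1 : xt p (j + 1) - xt p (i + 1) =
      ((p : ℝ) ^ (j + 1))⁻¹ * (1 - (p : ℝ) ^ (j - i)) := by
    unfold xt
    have e2 : (p : ℝ) ^ (j + 1) = (p : ℝ) ^ (i + 1) * (p : ℝ) ^ (j - i) := by
      rw [← pow_add]
      congr 1
      omega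
    rw [e2]
    have h1 : (p : ℝ) ^ (i + 1) ≠ 0 := pow_ne_zero _ hp0
    have h2 : (p : ℝ) ^ (j - i) ≠ 0 := pow_ne_zero _ hp0
    field_simp
  have e3 : |(p : ℝ)| ^ N = |(p : ℝ)| ^ (j + 1) * |(p : ℝ)| ^ (N - (j + 1)) := by
    rw [← pow_add]
    congr 1
    omega
  rw [e1, abs_mul, abs_inv, abs_pow, e3]
  have h3 : (0 : ℝ) < |(p : ℝ)| ^ (j + 1) := pow_pos hq0 _
  have h4 := one_le_abs_sub hp (k := j - i) (by omega)
  have h5 : (1 : ℝ) ≤ |(p : ℝ)| ^ (N - (j + 1)) := one_le_pow₀ (by linarith)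
  have e4 : (|(p : ℝ)| ^ (j + 1))⁻¹ * |1 - (p : ℝ) ^ (j - i)| *
      (|(p : ℝ)| ^ (j + 1) * |(p : ℝ)| ^ (N - (j + 1))) =
      |1 - (p : ℝ) ^ (j - i)| * |(p : ℝ)| ^ (N - (j + 1)) := by
    field_simp
  rw [e4]
  nlinarith

end P_VD

theorem t_VD : S_VD := by
  intro p hp N
  have hq : (2 : ℝ) ≤ |(p : ℝ)| := by exact_mod_cast hp
  have hq1 : (1 : ℝ) ≤ |(p : ℝ)| := by linarith
  have e1 : (Matrix.of fun t i : Fin N => xt p ((t : ℕ) + 1) ^ (i : ℕ)) =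
      Matrix.vandermonde fun t : Fin N => xt p ((t : ℕ) + 1) := rfl
  rw [e1, Matrix.det_vandermonde, Finset.abs_prod]
  simp_rw [Finset.abs_prod]
  have h1 : (∏ i : Fin N, ∏ _j ∈ Finset.Ioi i, |(p : ℝ)| ^ N) ≤ |(p : ℝ)| ^ N ^ 3 := by
    have h2 : ∀ i : Fin N, (∏ _j ∈ Finset.Ioi i, |(p : ℝ)| ^ N) ≤ (|(p : ℝ)| ^ N) ^ N := by
      intro i
      rw [Finset.prod_const]
      refine pow_le_pow_right₀ (one_le_pow₀ hq1) ?_
      exact (Finset.card_le_univ _).trans (by rw [Fintype.card_fin])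
    refine (Finset.prod_le_prod (fun i _ => Finset.prod_nonneg fun _ _ => by positivity)
      fun i _ => h2 i).trans ?_
    rw [Finset.prod_const, Finset.card_univ, Fintype.card_fin, ← pow_mul, ← pow_mul]
    refine le_of_eq ?_
    congr 1
    ring
  have h3 : (1 : ℝ) ≤ ∏ i : Fin N, ∏ j ∈ Finset.Ioi i,
      (|xt p ((j : ℕ) + 1) - xt p ((i : ℕ) + 1)| * |(p : ℝ)| ^ N) := by
    refine P_VD.one_le_prod _ _ fun i _ => P_VD.one_le_prod _ _ fun j hj => ?_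
    have hij : i < j := Finset.mem_Ioi.1 hj
    exact P_VD.diff hp (Fin.lt_def.1 hij) j.2
  simp_rw [Finset.prod_mul_distrib] at h3
  exact h3.trans (mul_le_mul_of_nonneg_left h1
    (Finset.prod_nonneg fun i _ => Finset.prod_nonneg fun j _ => abs_nonneg _))

end Pool.Agent.H410.QM
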