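import Pool.Agent.H410.NQ.Main
import Pool.Agent.H410.QM.P_D1
import Pool.Agent.H410.QM.P_GR
import Pool.Agent.H410.QM.P_VD
import Pool.Agent.H410.QM.P_LB
import Pool.Agent.H410.QM.P_DD
import Pool.Agent.H410.QM.P_LIP
import Pool.Agent.H410.QM.P_UU
import Pool.Agent.H410.QM.P_NEAR
import Pool.Agent.H410.QM.P_EXP
import Pool.Agent.H410.QM.P_COR
import Pool.Agent.H410.QM.P_QD
import Pool.Agent.H410.QM.P_CHN
import Pool.Agent.H410.QM.P_ME

/-!
Assembly (helper410).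
-/

namespace Pool.Agent.H410.QM

open Pool.Agent.H410.NQ

theorem main : S_ME := by
  have hSC := t_SC
  have hMON := t_MON
  have hB1 := Pool.Agent.H475.QZ.t_B1
  have hPK := t_PK
  have hINT := t_INT hSC t_TR2 hMON (t_E1 hPK hB1) (t_E2 hPK hB1) t_RD (t_EIJ hMON)
  have hPAD := t_PAD hSC t_TR1 hMON t_OM (t_HP hMON t_OM t_HX)
  have hHL := t_HL t_CF t_LAG
  have hRB := t_RB Pool.Agent.H475.QZ.t_PHI (t_T2 t_T1)
  have hDET := Pool.Agent.H475.QZ.t_DET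
  have hDU := Pool.Agent.H475.QZ.t_DU
  have hUB := NQ.t_UB (t_UE hHL) t_UV hDET hDU
  have hLOW := t_LOW hSC hINT hPAD
  have hCNZ := t_CNZ hINT
  have hLB := t_LB (t_GR t_D1) t_VD hHL hDET
  have hLIP := t_LIP t_DD t_CF
  have hUU := t_UU t_CF hDU
  exact t_ME (t_COR (t_NEAR hLB hLIP) (t_EXP hLOW t_SV hRB hUB hUU) hCNZ) t_QD t_CHN

end Pool.Agent.H410.QM
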