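import Pool.Agent.H410.NQ.Stm

/-!
Statements (with complete paper proofs in the docstrings) for the quantitative form of the theorem
`Pool.Agent.H410.NQ`: for every integer `p` with `|p| ≥ 2` there is a constant `C` with
`|f(E)| ≥ exp(-C (log H)^{3/2})` for all nonzero integral polynomials `f` of degree at most `2` and
height at most `H` (`H ≥ 2`), `E = ∑_{n ≥ 1} 1/(p^n-1)` (helper410).
Definitions and statements `NQ.S_*` in `Pool/Agent/H410/NQ/Defs.lean`, `Stm.lean` (all proved, in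
`Pool/Agent/H410/NQ/P_*.lean`); `QZ.S_*` in `Pool/Agent/H475/QZ/Stm.lean` (proved). Throughout
`P = |p| ≥ 2`, `E = EB p`.
-/

namespace Pool.Agent.H410.QM

open Finset Polynomial
open Pool.Agent.H410.NQ

/-! ## A. Gram determinants -/

/-- `det (1 + S) ≥ 1` for positive semidefinite `S`.
Proof. `T = 1 + S` is Hermitian; `det T` is the product of the eigenvalues
(`Matrix.IsHermitian.det_eq_prod_eigenvalues`), and every eigenvalue `λ` is at least `1`: for an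
eigenvector `v` (`IsHermitian.mulVec_eigenvectorBasis`, norm `1`) `λ = λ v⋅v = v⋅(T v) =
v⋅v + v⋅(S v) ≥ 1`. -/
def S_D1 : Prop := ∀ (N : ℕ) (S : Matrix (Fin N) (Fin N) ℝ), S.PosSemidef → 1 ≤ (1 + S).det

/-- Lower bound for an infinite Gram determinant.
Proof. Let `B t i = v t i` (`t, i < N`). If `det B = 0` the claim is `0 ≤ det M`, true because `M` is
positive semidefinite: symmetric (`HasSum.unique`), and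
`x⋅(M x) = ∑_t w t (∑_i v t i x_i)^2 ≥ 0`. Let `det B ≠ 0`, `G t i = √(w t) v t i` (`t, i < N`),
`det G = ∏ √(w t) · det B ≠ 0`, `M₁ = Gᵀ G`, i.e. `M₁ i j = ∑_{t<N} w t v t i v t j`, and
`S = M - M₁`, `S i j = ∑_{t ≥ N} w t v t i v t j`, positive semidefinite for the same reason. Then
`M = Gᵀ (1 + (G⁻¹)ᵀ S G⁻¹) G`, `(G⁻¹)ᵀ S G⁻¹` is positive semidefinite, so by `S_D1`
`det M ≥ (det G)^2 = ∏ w t · (det B)^2`. -/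
def S_GR : Prop := ∀ (N : ℕ) (M : Matrix (Fin N) (Fin N) ℝ) (w : ℕ → ℝ) (v : ℕ → Fin N → ℝ),
  (∀ t, 0 < w t) → (∀ i j, HasSum (fun t => w t * v t i * v t j) (M i j)) →
  (∏ t ∈ range N, w t) * (Matrix.of fun t i : Fin N => v (t : ℕ) i).det ^ 2 ≤ M.det

/-- The Vandermonde determinant of `x_1, …, x_N` (`x_t = p^{-t}`).
Proof. `Matrix.det_vandermonde`: the product over `i < j` (`i, j < N`) of `x_{j+1} - x_{i+1}`, and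
`|x_{j+1} - x_{i+1}| = P^{-(j+1)} |1 - p^{j-i}| ≥ P^{-(j+1)} ≥ P^{-N}` (`|p^k - 1| ≥ P^k - 1 ≥ 1` for
`k ≥ 1`). There are at most `N^2` factors (all `P^{-N} ≤ 1`). -/
def S_VD : Prop := ∀ p : ℤ, 2 ≤ |p| → ∀ N : ℕ,
  1 ≤ |(Matrix.of fun t i : Fin N => xt p ((t : ℕ) + 1) ^ (i : ℕ)).det| * |(p : ℝ)| ^ N ^ 3

/-- Lower bound for the determinant at `E`.
Proof. `QZ.S_DET` over `ℝ` with `B = AM p E N` and `F_i = G_i = X^i`: `|det B| = |V| |det T|`,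
`T i j = LL p N (X^i) (X^j)` (definition of `LL`, sums over `Fin N` / `range N`). `|V| ≥ 1`: `V` is a
product of nonzero integers `p^l - p^i`, `i < l` (it is the cast of `VV ℤ p N ≠ 0`). By `NQ.S_HL`
`T i j = ∑_{t ≥ 0} x^2 x^i x^j/Q(x)`, `x = x_{t+1}`. The sign `σ = ±1` of `Q(x_{t+1})` does not depend
on `t` (it is the sign of `∏_{k<N} p^k`, as `|x_{t+1}| ≤ 1/2 < 1 ≤ |p^k|`; see the proof of
`NQ.S_NZ` in `Pool/Agent/H410/NQ/P_NZ.lean`). So `σ T` is an infinite Gram matrix with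
`w t = x_{t+1}^2/|Q(x_{t+1})| > 0`, `v t i = x_{t+1}^i`, and `S_GR` gives
`|det T| = |det (σ T)| ≥ ∏_{t<N} w t · (det (v t i))^2`. Here `x_{t+1}^2 ≥ P^{-2N}` and
`|Q(x)| ≤ ∏_{k<N} (P^k + 1/2) ≤ ∏_{k<N} P^{k+1} ≤ P^{N^2}` (`P^k + 1/2 ≤ 2 P^k`), so
`w t ≥ P^{-2N-N^2} ≥ P^{-3N^2}`, `∏ w t ≥ P^{-3N^3}`; and `S_VD`. Total
`|det B| ≥ P^{-5N^3}`. -/
def S_LB : Prop := ∀ p : ℤ, 2 ≤ |p| → ∃ C : ℕ, ∀ N : ℕ, 1 ≤ N →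
  1 ≤ |(AM p (EB p) N).det| * |(p : ℝ)| ^ (C * N ^ 3)

/-! ## B. dependence on `z` -/

/-- Difference of two determinants.
Proof. Leibniz formula. For each permutation `|∏ a_i - ∏ b_i| ≤ N M^N δ` if `|a_i|, |b_i| ≤ M`,
`|a_i - b_i| ≤ M δ` (induction over the number of factors:
`a a' - b b' = a (a' - b') + (a - b) b'`). -/
def S_DD : Prop := ∀ (N : ℕ) (A B : Matrix (Fin N) (Fin N) ℝ) (M δ : ℝ), 0 ≤ M → 0 ≤ δ →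
  (∀ i j, |A i j| ≤ M) → (∀ i j, |B i j| ≤ M) → (∀ i j, |A i j - B i j| ≤ M * δ) →
  |A.det - B.det| ≤ (N.factorial : ℝ) * (N * M ^ N * δ)

/-- Lipschitz bound.
Proof. `Az p z k J = Az p E k J + p^{kJ}(z - E)` and `|Az p E k J| ≤ 2`, `|Az p z k J| ≤
(2+|z-E|) P^{kJ} ≤ 3 P^{kJ}` (lemmas `P_UC.AE_le`, `P_UC.Az_eq`, `P_UC.Az_le` of
`Pool/Agent/H410/NQ/P_UC.lean`, which may be imported), `P^{k(j+1)} ≤ P^{N^2}`. `S_DD` with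
`M = 3 P^{N^2}`, `δ = |z - E|`: `N! N (3 P^{N^2})^N δ ≤ P^{5N^3} δ`
(`N! N ≤ N^{N+1} ≤ 2^{N(N+1)} ≤ P^{2N^3}`, `3^N ≤ P^{2N}`). -/
def S_LIP : Prop := ∀ p : ℤ, 2 ≤ |p| → ∃ C : ℕ, ∀ (N : ℕ) (z : ℝ), 1 ≤ N → |z - EB p| ≤ 1 →
  |(AM p z N).det - (AM p (EB p) N).det| ≤ |z - EB p| * |(p : ℝ)| ^ (C * N ^ 3)

/-- Uniform upper bound.
Proof. The proof of `NQ.S_UC` in `Pool/Agent/H410/NQ/P_UC.lean` (same proof, keep the factor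
`c0 = 2 + |z - E|`). -/
def S_UU : Prop := ∀ p : ℤ, 2 ≤ |p| → ∃ C : ℕ, ∀ (z : ℝ) (N : ℕ), 1 ≤ N →
  |(AM p z N).det| ^ 6 ≤ (2 + |z - EB p|) ^ (6 * N) * |(p : ℝ)| ^ (2 * N ^ 3 + C * N ^ 2)

/-! ## C. the main inequality -/

/-- If `z` is very close to `E`, then the determinant at `z` is not `0` and not much larger.
Proof. Let `C₁, C₂` be the constants of `S_LB`, `S_LIP`, `C = C₁ + C₂ + 1`. If
`|z - E| P^{C N^3} ≤ 1` (so `|z-E| ≤ 1`), then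
`|det(z) - det(E)| ≤ P^{-(C₁+1) N^3} ≤ P^{-C₁N^3}/2 ≤ |det(E)|/2` (`N ≥ 1`, `P ≥ 2`). -/
def S_NEAR : Prop := ∀ p : ℤ, 2 ≤ |p| → ∃ C : ℕ, ∀ (N : ℕ) (z : ℝ), 1 ≤ N →
  |z - EB p| * |(p : ℝ)| ^ (C * N ^ 3) ≤ 1 →
  (AM p z N).det ≠ 0 ∧ |(AM p z N).det| ≤ 2 * |(AM p (EB p) N).det|

/-- The inequality of exponents.
Proof. As in `NQ.S_CON`. `NQ.S_LOW` to the power `150`, with `V = ∑_{r<2n} vv r`,
`300 V ≥ 200 n^3 - 600 n^2` (`NQ.S_SV`): `P^{300V} ≤ |b|^{600n} |R|^{300} |det(y/b)|^{150}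
|det(y'/b)|^{150}`. `NQ.S_RB` to the power `12`: `|R|^{300} ≤ P^{384n^3 + 12C n^2}`.
`|det(y/b)|^{150} ≤ 2^{150} |det(E)|^{150}` (`hn`) and `NQ.S_UB` (`N = 2n`,
`N^2(N-1) = 8n^3 - 4n^2`) to the power `75`: `|det(E)|^{150} P^{600n^3 - 300n^2} ≤
((2n)! 36^{2n})^{150} ≤ P^{C n^2}`. `S_UU` (`N = 2n`) to the power `25`: `|det(y'/b)|^{150} ≤
(2+|y'/b - E|)^{300n} P^{400n^3 + 100 C n^2}`, and `2 + P^L ≤ P^{L+2}`. `|b| ≤ P^L`. Total: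
`200 n^3 + 600 n^3 ≤ 384 n^3 + 400 n^3 + C n^2 + 600 n L + 300 n (L+2)`, i.e.
`16 n^3 ≤ C n^2 + 900 n L` with a new constant `C` (depending only on `p`). -/
def S_EXP : Prop := ∀ p : ℤ, 2 ≤ |p| → ∃ C : ℕ,
  ∀ (b s t : ℤ) (y y' : ℝ) (L n : ℕ), b ≠ 0 → y + y' = s → y * y' = t → 1 ≤ n →
  (AM p (y / b) (2 * n)).det ≠ 0 → (AM p (y' / b) (2 * n)).det ≠ 0 →
  |(AM p (y / b) (2 * n)).det| ≤ 2 * |(AM p (EB p) (2 * n)).det| →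
  |(b : ℝ)| ≤ |(p : ℝ)| ^ L → |y' / b - EB p| ≤ |(p : ℝ)| ^ L →
  16 * n ^ 3 ≤ C * n ^ 2 + 900 * (n * L)

/-- Lower bound for `|y/b - E|`.
Proof. Let `C₁, C₂` be the constants of `S_NEAR`, `S_EXP`, `C = 8 C₁ + C₂ + 900`. Suppose
`|y/b - E| P^{C n^3} ≤ 1`. Then `S_NEAR` applies with `N = 2n` (`C₁ (2n)^3 = 8 C₁ n^3`), so
`det(y/b) ≠ 0`; if `y' = y` then `det(y'/b) ≠ 0`, if `y'` is irrational then by `NQ.S_CNZ`. `S_EXP`: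
`16 n^3 ≤ C₂ n^2 + 900 n L ≤ n^3 + n^3` because `C₂ ≤ C ≤ n` and `900 L ≤ C L ≤ n^2`.
Contradiction (`n ≥ 1`). -/
def S_COR : Prop := ∀ p : ℤ, 2 ≤ |p| → ∃ C : ℕ, 1 ≤ C ∧
  ∀ (b s t : ℤ) (y y' : ℝ) (L n : ℕ), b ≠ 0 → y + y' = s → y * y' = t →
  (Irrational y' ∨ y' = y) → |(b : ℝ)| ≤ |(p : ℝ)| ^ L → |y' / b - EB p| ≤ |(p : ℝ)| ^ L →
  C ≤ n → C * L ≤ n ^ 2 → 1 < |y / b - EB p| * |(p : ℝ)| ^ (C * n ^ 3)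

/-! ## D. the measure -/

/-- Quadratic polynomials with real roots.
Proof. Let `D = b^2 - 4ac`. If `D < 0` then
`4a (aE^2+bE+c) = (2aE+b)^2 - D ≥ 1` (`D` is an integer), so
`|aE^2+bE+c| ≥ 1/(4|a|) ≥ 1/(4H)`. If `D ≥ 0`: `u = (-b+√D)/2`, `u' = (-b-√D)/2`, `u + u' = -b`,
`u u' = ac`, `aE^2+bE+c = a (E-u/a)(E-u'/a)`, `|u|, |u'| ≤ (H + √(5H^2))/2 ≤ 2H`. Let `(y, y')`
be `(u, u')` or `(u', u)` with `|y/a - E| ≤ |y'/a - E|`; so `|y/a-E|^2 ≤ |f(E)|` (`|a| ≥ 1`). If `y'` is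
irrational take `(y, y')` (`s = -b`, `t = ac`). If `y'` is rational then `√D` is rational, so `D = m^2`
is the square of an integer (e.g. `irrational_sqrt_intCast_iff` or
`Nat.Prime`-free: `irrational_nrt_of_notint_nrt`), `m ≡ b` mod `2`, and `y` is an integer: take the
pair `(y, y)` (`s = 2y`, `t = y^2`). -/
def S_QD : Prop := ∀ (a b c : ℤ) (E H : ℝ), a ≠ 0 → |(a : ℝ)| ≤ H → |(b : ℝ)| ≤ H →
  |(c : ℝ)| ≤ H →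
  1 / (4 * H) ≤ |a * E ^ 2 + b * E + c| ∨
  ∃ (s t : ℤ) (y y' : ℝ), y + y' = s ∧ y * y' = t ∧ (Irrational y' ∨ y' = y) ∧ |y'| ≤ 2 * H ∧
    |y / a - E| ^ 2 ≤ |a * E ^ 2 + b * E + c|

/-- Choice of the parameters.
Proof. `x = log H ≥ log 2 ≥ 2/3`. `L = ⌈x/log 2⌉ + 2 ≤ 2x + 3 ≤ 7x` (`1/log 2 ≤ 2`,
`3 ≤ (9/2) x`), so `2^L ≥ 4H`. `m = ⌈√L⌉ ≤ √L + 1 ≤ 2√L`, `m ≥ 1`, `n = C m`: `C ≤ n`,
`C L ≤ C^2 m^2 = n^2`. `P^{2C n^3} = exp(2 C^4 m^3 log P)` and `m^3 ≤ 8 L^{3/2} ≤ 8·7^{3/2} x^{3/2}`.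
(`x^{3/2}` is `Real.rpow`.) -/
def S_CHN : Prop := ∀ (P : ℝ) (C : ℕ), 2 ≤ P → 1 ≤ C → ∃ C' : ℝ, 0 ≤ C' ∧ ∀ H : ℝ, 2 ≤ H →
  ∃ L n : ℕ, 4 * H ≤ 2 ^ L ∧ C ≤ n ∧ C * L ≤ n ^ 2 ∧
    P ^ (2 * (C * n ^ 3)) ≤ Real.exp (C' * Real.log H ^ (3 / 2 : ℝ))

/-- The measure.
Proof. Let `C` be the constant of `S_COR` and `C₀` the one of `S_CHN` (`P = |p|`), and
`C' = max C₀ 5 + ..` large. `|E| ≤ 2` (`|1/(p^n-1)| ≤ 2·2^{-n}`). (1) `a = b = 0`: `|c| ≥ 1`.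
(2) `a = 0`, `b ≠ 0`: `S_COR` with `b`, `y = y' = -c`: `|y/b - E| ≤ H + 2 ≤ 4H ≤ 2^L ≤ P^L`,
`|b| ≤ H ≤ P^L`, so `|f(E)| = |b||y/b - E| ≥ |y/b-E| ≥ P^{-Cn^3} ≥ P^{-2Cn^3}`. (3) `a ≠ 0`:
`S_QD`. In the first case `|f(E)| ≥ 1/(4H) = exp(-log(4H)) ≥ exp(-3 log H) ≥
exp(-4 (log H)^{3/2})` (`log H ≥ log 2 ≥ 9/16`). In the second case `S_COR` with `b = a`:
`|y'/a - E| ≤ 2H + 2 ≤ 4H`, `|f(E)| ≥ |y/a-E|^2 ≥ P^{-2Cn^3}`. -/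
def S_ME : Prop := ∀ p : ℤ, 2 ≤ |p| → ∃ C : ℝ, 0 < C ∧ ∀ (H : ℝ) (a b c : ℤ), 2 ≤ H →
  |(a : ℝ)| ≤ H → |(b : ℝ)| ≤ H → |(c : ℝ)| ≤ H → (a ≠ 0 ∨ b ≠ 0 ∨ c ≠ 0) →
  Real.exp (-(C * Real.log H ^ (3 / 2 : ℝ))) ≤ |a * EB p ^ 2 + b * EB p + c|

end Pool.Agent.H410.QM
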